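import Pool.Agent.H85.UT.UTim
import Pool.Agent.H85.UP.Defs
import Pool.Agent.H71.PX.TimAM
import Pool.Agent.H71.PX.TimBM
import Pool.Agent.H48.PL.Equi
import Pool.Agent.H25.PT.TimBV

/-!
# Module UClo: block T of P-UP (`tail_r` of H85/UP/Blk), rate `V^(-1)`

`κ = kpa s m = m/(2s) ≥ 1`, `EU a m κ` from `UE s a m q`. `δ, c₁, C₁` from `pov_timeM` (H71/PX/TimAM), `ε₁, C₂` from `ent_timeM` (TimBM) with this `δ`, `c, K` from `pair_timeM` (with `δ/2`). Time and space integrals over `[r,t]`, `Y(A) = ∫∫ YW a m V (f τ x) A`, `D = Hs (f r) - Hs (f t)`, `v = V^(-1)(1+(t-r))`: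
`Y(univ) ≤ Y(Cmpᶜ) + Y(Cmp ∩ NtMᶜ) + Y(Cmp(δ/2) ∩ NtM)` (`YW_univ_le`), `Y(Cmp) ≤ Y(Cmp ∩ NtMᶜ) + Y(Cmp(δ/2) ∩ NtM)` (`YW_cmp_le`), `c₁ Y(Cmpᶜ) ≤ 2M V^(-1) + C₁ Y(Cmp)`, `Y(Cmp ∩ NtMᶜ) ≤ C₂ Y(Cmp(δ/2) ∩ NtM) + C₂ D`,
`c Y(Cmp(δ/2) ∩ NtM) ≤ K M² V^(-1)(1+(t-r)/l) + K η Y(univ)`, `XT a m V = YW univ` (`XT_eq`). So `Y(univ) ≤ A v/l + A D + A' η Y(univ)` with `A, A'` independent of `l, η, V, T, f`. `D ≥ 0` (`Hs_anti`, H48/PI/BadW; or keep `D` with its coefficient). Take `η = 1/(2A'+1)`, `l = l₀` from `equi` with exponent `qx a m κ ∈ [0,2)`, absorb.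
Template: PL/Clos and H25/PT/TailX (integrability of the slices in `x` and `τ`: H71/PX/YC, as `iw_ii` in TailX). `TailR` has the rate `r = 1`. `M ≥ 0` follows from `GB M` (mass) or replace `2M` by `|2M|`.
-/

set_option autoImplicit false

open MeasureTheory Set Filter Topology Pool.Agent.H25.Kin Pool.Agent.H82.BK Pool.Agent.H82.CM
open Pool.Agent.H48.PL Pool.Agent.H48.PI Pool.Agent.H48.PW Pool.Agent.H71.PX Pool.Agent.H85.UP

namespace Pool.Agent.H85.UT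

variable {d : ℕ} {s a m q C Ca cb : ℝ} {b : ℝ → ℝ}

private lemma uclo_int (ha : 0 ≤ a) (ha1 : a ≤ 1) (hm1 : m ≤ 1) {T γ V : ℝ} (hV : 1 ≤ V)
    {f : ℝ → Vec d → Vec d → ℝ} (hf : IsBoltzmannSol γ b T f) {t : ℝ} (ht : t ∈ Ico 0 T)
    {A : Set (Vec d × Vec d)} (hA : MeasurableSet A) :
    Integrable (fun x => YW a m V (f t x) A) (muD d) := by
  obtain ⟨h1, h2, h3⟩ := Pool.Agent.H25.PT.wt_om (d := d) (a := m) hm1 hV hA
  have hf' : IsClassicalSol T (fun t x => boltzQ γ b (f t x)) f := hf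
  have h := YG_int ha ha1 hm1 hf' h1 h2 h3 ht
  refine h.congr (Eventually.of_forall fun x => ?_)
  exact (YW_eq_YG hA).symm

private noncomputable def IW (a m V : ℝ) (f : ℝ → Vec d → Vec d → ℝ) (A : Set (Vec d × Vec d))
    (t : ℝ) : ℝ := ∫ x, YW a m V (f t x) A ∂(muD d)

private lemma uclo_ii (ha : 0 ≤ a) (ha1 : a ≤ 1) (hm1 : m ≤ 1) {T γ V : ℝ} (hV : 1 ≤ V)
    {f : ℝ → Vec d → Vec d → ℝ} (hf : IsBoltzmannSol γ b T f) {r t : ℝ} (hr : 0 ≤ r) (hrt : r ≤ t)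
    (htT : t < T) {A : Set (Vec d × Vec d)} (hA : MeasurableSet A) :
    IntervalIntegrable (IW a m V f A) volume r t := by
  obtain ⟨h1, h2, h3⟩ := Pool.Agent.H25.PT.wt_om (d := d) (a := m) hm1 hV hA
  have hf' : IsClassicalSol T (fun t x => boltzQ γ b (f t x)) f := hf
  have h := YGt_cont ha ha1 hm1 hf' h1 h2 h3
  have e : (fun t : ℝ => ∫ x, YG a m (A.indicator fun p : Vec d × Vec d => om m V (RR p.1 p.2)) (f t x) ∂(muD d)) =
      IW a m V f A := by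
    funext τ
    refine integral_congr_ae (Eventually.of_forall fun x => ?_)
    exact (YW_eq_YG hA).symm
  rw [e] at h
  refine ContinuousOn.intervalIntegrable_of_Icc hrt (h.mono ?_)
  intro x hx
  exact ⟨hr.trans hx.1, hx.2.trans_lt htT⟩

private lemma uclo_split {r t : ℝ} (hrt : r ≤ t) {F G H : ℝ → ℝ}
    (hF : IntervalIntegrable F volume r t) (hG : IntervalIntegrable G volume r t)
    (hH : IntervalIntegrable H volume r t) (h : ∀ x ∈ Icc r t, F x ≤ G x + H x) :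
    ∫ τ in r..t, F τ ≤ (∫ τ in r..t, G τ) + ∫ τ in r..t, H τ := by
  rw [← intervalIntegral.integral_add hG hH]
  exact intervalIntegral.integral_mono_on hrt hF (hG.add hH) h

private lemma uclo_w (ha : 0 ≤ a) (ha1 : a ≤ 1) (hm1 : m ≤ 1) {T γ V : ℝ} (hV : 1 ≤ V)
    {f : ℝ → Vec d → Vec d → ℝ} (hf : IsBoltzmannSol γ b T f) {r t : ℝ} (hr : 0 < r) (hrt : r ≤ t)
    (htT : t < T) {δ : ℝ} (hδ : 0 ≤ δ) (e : Fin d) (ε κ : ℝ) :
    (∫ τ in r..t, IW a m V f univ τ) ≤ (∫ τ in r..t, IW a m V f (CmpS δ)ᶜ τ) +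
      ((∫ τ in r..t, IW a m V f (CmpS δ ∩ (NtM e ε κ)ᶜ) τ) +
        ∫ τ in r..t, IW a m V f (CmpS (δ / 2) ∩ NtM e ε κ) τ) ∧
    (∫ τ in r..t, IW a m V f (CmpS δ) τ) ≤
      (∫ τ in r..t, IW a m V f (CmpS δ ∩ (NtM e ε κ)ᶜ) τ) +
        ∫ τ in r..t, IW a m V f (CmpS (δ / 2) ∩ NtM e ε κ) τ := by
  have m0 : MeasurableSet (univ : Set (Vec d × Vec d)) := MeasurableSet.univ
  have m1 : MeasurableSet (CmpS δ : Set (Vec d × Vec d)) := measurableSet_CmpS δ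
  have m2 : MeasurableSet (CmpS δ ∩ (NtM e ε κ)ᶜ : Set (Vec d × Vec d)) :=
    m1.inter (measurableSet_NtM e ε κ).compl
  have m3 : MeasurableSet (CmpS (δ / 2) ∩ NtM e ε κ : Set (Vec d × Vec d)) :=
    (measurableSet_CmpS _).inter (measurableSet_NtM e ε κ)
  have hii := fun {A : Set (Vec d × Vec d)} (hA : MeasurableSet A) =>
    uclo_ii ha ha1 hm1 hV hf hr.le hrt htT hA
  have hmem : ∀ τ ∈ Icc r t, τ ∈ Ioo 0 T := fun τ hτ => ⟨hr.trans_le hτ.1, hτ.2.trans_lt htT⟩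
  constructor
  · rw [← intervalIntegral.integral_add (hii m2) (hii m3)]
    refine uclo_split hrt (hii m0) (hii m1.compl) ((hii m2).add (hii m3)) fun τ hτ => ?_
    have hτ1 := hmem τ hτ
    have hτ0 : τ ∈ Ico 0 T := ⟨hτ1.1.le, hτ1.2⟩
    have hi := fun {A : Set (Vec d × Vec d)} (hA : MeasurableSet A) =>
      uclo_int ha ha1 hm1 hV hf hτ0 hA
    simp only [IW]
    rw [← integral_add (hi m2) (hi m3)]
    have h2 : Integrable (fun x => YW a m V (f τ x) (CmpS δ ∩ (NtM e ε κ)ᶜ) +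
      YW a m V (f τ x) (CmpS (δ / 2) ∩ NtM e ε κ)) (muD d) := (hi m2).add (hi m3)
    rw [← integral_add (hi m1.compl) h2]
    refine integral_mono (hi m0) ((hi m1.compl).add h2) fun x => ?_
    exact YW_univ_le ha ha1 hm1 hV (hf.nice hτ1 x).rd (hf.nice hτ1 x).cont
      (fun v => hf.nonneg τ hτ0 x v) hδ e ε κ
  · refine uclo_split hrt (hii m1) (hii m2) (hii m3) fun τ hτ => ?_
    have hτ1 := hmem τ hτ
    have hτ0 : τ ∈ Ico 0 T := ⟨hτ1.1.le, hτ1.2⟩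
    have hi := fun {A : Set (Vec d × Vec d)} (hA : MeasurableSet A) =>
      uclo_int ha ha1 hm1 hV hf hτ0 hA
    simp only [IW]
    rw [← integral_add (hi m2) (hi m3)]
    refine integral_mono (hi m1) ((hi m2).add (hi m3)) fun x => ?_
    exact YW_cmp_le ha ha1 hm1 hV (hf.nice hτ1 x).rd (hf.nice hτ1 x).cont
      (fun v => hf.nonneg τ hτ0 x v) hδ e ε κ

private lemma uclo_absorb {Wu Wh Wc Wt Wn M c₁ C₁ C₂ c K η v D G l τ : ℝ} (hc₁ : 0 < c₁)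
    (hC₁ : 0 ≤ C₁) (hC₂ : 0 ≤ C₂) (hc : 0 < c) (hK : 0 ≤ K) (hWu : 0 ≤ Wu) (hv : 0 ≤ v) (hD : 0 ≤ D)
    (hτ : 0 ≤ τ) (hl : 0 < l) (hl1 : l ≤ 1)
    (hG : G = (C₁ / c₁ + 1) * (C₂ + 1) / c * K) (hη : G * η ≤ 1 / 2)
    (h1 : Wu ≤ Wh + (Wt + Wn)) (h2 : Wc ≤ Wt + Wn) (h3 : c₁ * Wh ≤ 2 * M * v + C₁ * Wc)
    (h4 : Wt ≤ C₂ * Wn + C₂ * D) (h5 : c * Wn ≤ K * M ^ 2 * v * (1 + τ / l) + K * η * Wu) :
    Wu ≤ (4 * |M| / c₁ + 2 * ((C₁ / c₁ + 1) * C₂) + 2 * (G * M ^ 2 / l)) * (v * (1 + τ) + D) := by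
  set B : ℝ := C₁ / c₁ + 1 with hB
  have hB0 : 0 < B := by positivity
  have hG0 : 0 ≤ G := by rw [hG]; positivity
  have hvτ : 0 ≤ v * τ := mul_nonneg hv hτ
  have g1 : Wh ≤ 2 * |M| / c₁ * v + C₁ / c₁ * (Wt + Wn) := by
    have : Wh ≤ (2 * |M| * v + C₁ * (Wt + Wn)) / c₁ := by
      rw [le_div_iff₀ hc₁]
      have q1 : 2 * M * v ≤ 2 * |M| * v := by
        have := mul_le_mul_of_nonneg_right (le_abs_self M) hv
        linarith
      have q2 : C₁ * Wc ≤ C₁ * (Wt + Wn) := mul_le_mul_of_nonneg_left h2 hC₁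
      linarith
    refine this.trans (le_of_eq ?_)
    ring
  have g2 : Wu ≤ 2 * |M| / c₁ * v + B * (Wt + Wn) := by
    have : B * (Wt + Wn) = C₁ / c₁ * (Wt + Wn) + (Wt + Wn) := by rw [hB]; ring
    linarith
  have g3 : B * (Wt + Wn) ≤ B * (C₂ * D) + B * (C₂ + 1) * Wn := by
    have : B * (Wt + Wn) ≤ B * (C₂ * Wn + C₂ * D + Wn) :=
      mul_le_mul_of_nonneg_left (by linarith) hB0.le
    refine this.trans (le_of_eq ?_)
    ring
  have g4 : Wn ≤ (K * M ^ 2 * v * (1 + τ / l) + K * η * Wu) / c := by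
    rw [le_div_iff₀ hc]
    linarith
  have g5 : B * (C₂ + 1) * Wn ≤ G * M ^ 2 * (v * (1 + τ / l)) + G * η * Wu := by
    have h8 : 0 ≤ B * (C₂ + 1) := by positivity
    refine (mul_le_mul_of_nonneg_left g4 h8).trans (le_of_eq ?_)
    rw [hG]
    ring
  have g6 : G * η * Wu ≤ 1 / 2 * Wu := mul_le_mul_of_nonneg_right hη hWu
  have g7 : G * M ^ 2 * (v * (1 + τ / l)) ≤ G * M ^ 2 / l * (v * (1 + τ)) := by
    have e1 : G * M ^ 2 * (v * (1 + τ / l)) = G * M ^ 2 / l * (v * (l + τ)) := by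
      field_simp
    rw [e1]
    refine mul_le_mul_of_nonneg_left (mul_le_mul_of_nonneg_left (by linarith) hv) (by positivity)
  have a1 : 0 ≤ 2 * |M| / c₁ := by positivity
  have a2 : 0 ≤ B * C₂ := by positivity
  have a3 : 0 ≤ G * M ^ 2 / l := by positivity
  have b1 : 2 * |M| / c₁ * v ≤ 2 * |M| / c₁ * (v * (1 + τ) + D) :=
    mul_le_mul_of_nonneg_left (by nlinarith) a1
  have b2 : B * (C₂ * D) ≤ B * C₂ * (v * (1 + τ) + D) := by
    have : B * C₂ * D ≤ B * C₂ * (v * (1 + τ) + D) := mul_le_mul_of_nonneg_left (by nlinarith) a2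
    linarith
  have b3 : G * M ^ 2 / l * (v * (1 + τ)) ≤ G * M ^ 2 / l * (v * (1 + τ) + D) :=
    mul_le_mul_of_nonneg_left (by linarith) a3
  have e2 : (4 * |M| / c₁ + 2 * (B * C₂) + 2 * (G * M ^ 2 / l)) * (v * (1 + τ) + D) =
      2 * (2 * |M| / c₁ * (v * (1 + τ) + D) + B * C₂ * (v * (1 + τ) + D) +
        G * M ^ 2 / l * (v * (1 + τ) + D)) := by ring
  rw [e2]
  linarith

private lemma uclo_facts (U : UE s a m q) : 0 < a ∧ a ≤ 1 ∧ 0 < m ∧ m ≤ 1 ∧ EU a m (kpa s m) := by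
  have h1 := U.hs
  have h2 := U.has
  have h3 := U.ha1
  have h4 := U.hm
  have h5 := U.hma
  have h6 := U.hm1
  have h7 := U.hmQ
  have hk : 1 ≤ kpa s m := by
    unfold kpa
    rw [one_le_div (by positivity)]
    exact h4.le
  refine ⟨by linarith, by linarith, by linarith, by linarith, ?_⟩
  exact ⟨by linarith, by linarith, by linarith, h5, hk, h6, by unfold kpa; exact h7⟩

theorem tail_rG (HL : HypL d (1 + a) s b C Ca cb) (U : UE s a m q) : TailR d a m b := by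
  intro e M
  obtain ⟨ha, ha1, hm0, hm1, E⟩ := uclo_facts U
  obtain ⟨-, -, -, hq0, hq2, -⟩ := E.facts
  obtain ⟨δ, c₁, C₁, hδ, hδ1, hc₁, hC₁, hA⟩ := pov_timeM HL ha.le ha1 U.hm hm1
  obtain ⟨ε₁, C₂, hε₁, hC₂, hB⟩ := ent_timeM HL ha ha1 hm0 hm1 e hδ hδ1
  obtain ⟨c, K, hc, hK, hD⟩ := pair_timeM HL E U.hm hε₁ e (half_pos hδ) (by linarith)
  set G : ℝ := (C₁ / c₁ + 1) * (C₂ + 1) / c * K with hG
  have hG0 : 0 ≤ G := by positivity
  set η : ℝ := 1 / (2 * G + 1) with hη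
  have hη0 : 0 < η := by positivity
  have hGη : G * η ≤ 1 / 2 := by
    rw [hη, mul_one_div, div_le_div_iff₀ (by positivity) (by norm_num)]
    linarith
  obtain ⟨l, hl, hl1, hE⟩ := equi e M hq0.le hq2 hη0
  refine ⟨1, 4 * |M| / c₁ + 2 * ((C₁ / c₁ + 1) * C₂) + 2 * (G * M ^ 2 / l), one_pos, by positivity, ?_⟩
  intro T f hf hpl h0 V hV r t hr hrt htT
  have hD0 : 0 ≤ Hs (f r) - Hs (f t) := sub_nonneg.2 (Pool.Agent.H25.PT.Hs_anti HL.H hf hr hrt htT)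
  have hV0 : 0 < V := by linarith
  have hVp : 0 ≤ V ^ (-1 : ℝ) := (Real.rpow_pos_of_pos hV0 _).le
  have hW0 : 0 ≤ ∫ τ in r..t, IW a m V f univ τ :=
    intervalIntegral.integral_nonneg hrt fun τ hτ => integral_nonneg fun x =>
      YW_nonneg hV (fun v => hf.nonneg τ ⟨hr.le.trans hτ.1, hτ.2.trans_lt htT⟩ x v) univ
  obtain ⟨s1, s2⟩ := uclo_w ha.le ha1 hm1 hV hf hr hrt htT hδ.le e ε₁ (kpa s m)
  have h3 := hA M T f hf h0 V hV r t hr hrt htT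
  have h4 := hB T f hf V hV r t hr hrt htT
  have h5 := hD M T f hf hpl h0 V hV l η hl hl1 (fun t' ht' x => by
    have hg := glob_bounds HL.H hf h0 (t := t') ⟨ht'.1.le, ht'.2⟩
    exact hE l hl le_rfl (f t') _ (fs_of hf hpl ht') hg.mass hg.energy hg.entropy x) r t hr hrt htT
  simp only [XT_eq] at h5 ⊢
  exact uclo_absorb hc₁ hC₁ hC₂ hc hK hW0 hVp hD0 (sub_nonneg.2 hrt) hl hl1 hG hGη s1 s2 h3 h4 h5

end Pool.Agent.H85.UT
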