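import Pool.Agent.H71.PX.Defs

/-!
# Module UDef: block T of P-UP, exponents `m ≤ a`

The weight is `TV e a m κ ε V v w = Sm m V (jb v) (jb w) * Th0 e a m κ ε (v - w)` of H71/PX/Defs, `qx a m κ = κ(1+m)+a`.
-/

set_option autoImplicit false

open MeasureTheory Set Filter Topology Pool.Agent.H25.Kin Pool.Agent.H48.PL Pool.Agent.H48.PI
open Pool.Agent.H71.PX

namespace Pool.Agent.H85.UT

/-- the conditions on the exponents -/
structure EU (a m κ : ℝ) : Prop where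
  ha : 0 < a
  ha1 : a < 1
  hm : 0 < m
  hma : m ≤ a
  hκ : 1 ≤ κ
  ham : a + m < 1
  hq : κ * (1 + m) + a < 2

lemma EU.facts {a m κ : ℝ} (E : EU a m κ) : m < 1 ∧ a + m + κ ≤ qx a m κ ∧ a + κ ≤ qx a m κ ∧ 0 < qx a m κ ∧
    qx a m κ < 2 ∧ κ < 2 := by
  have h1 := E.ha
  have h2 := E.hm
  have h3 := E.hκ
  have h4 := E.hq
  have h5 := E.hma
  have h6 := E.ham
  have h7 : 1 * m ≤ κ * m := mul_le_mul_of_nonneg_right h3 h2.le
  have h8 : κ * (1 + m) = κ + κ * m := by ring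
  unfold qx
  refine ⟨?_, ?_, ?_, ?_, ?_, ?_⟩ <;> nlinarith

end Pool.Agent.H85.UT
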