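import Pool.Agent.H85.UT.UDef
import Pool.Agent.H48.PI.OmA
import Pool.Agent.H48.PL.JB

/-!
# Module USm: the weight `Sm m V j k = (min j k/max j k)² om m V (min j k)`, `j, k ≥ 1`

`om m V x = min(1, x/V)^(4-m)` (H48/PI/OmA: `om_nonneg`, `om_le_one`, `om_mono`), `Q = qx a m κ = κ(1+m)+a < 2`.
* `Sm_S1`: `k ≤ j`: left side `k² j^(a+m+κ-2) om(k)`, and `k^(2-m) ≤ j^(2-m) ≤ j^(2+κm-m)`, `2+κm-m = Q+2-a-m-κ`. `j ≤ k`: `j² k^(a+m+κ-2) om(j) ≤ j^(a+m+κ) om(j) ≤ j^(a+κ) k^m om(k) ≤ j^Q k^m om(k)`.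
* `Sm_S2`: `k ≤ j`: `(k/j)² ≤ 1`. `j ≤ k`: `j² k^(Q-2) om(j) ≤ j^Q om(k)`.
* `Sm_lip` (`k ≤ k' ≤ 2k`, `j` fixed, `f = Sm j`): both `≤ j`: `f(k) = P(k)/j²`, `P(k) = k² om(k)` increasing and `P(k)/P(k') ≥ (k/k')^(6-m) ≥ (k/k')^6 ≥ 1 - 6(1-k/k')` (Bernoulli; `min(1,k/V) ≥ (k/k') min(1,k'/V)`), so `0 ≤ f(k')-f(k) ≤ 6 f(k')(k'-k)/k'`.
  Both `≥ j`: `f(k) = j² om(j)/k²`, `0 ≤ f(k)-f(k') = f(k')(k'-k)(k'+k)/k² ≤ 6 f(k')(k'-k)/k'`. `k < j < k'`: through `j`: `|f(k)-f(j)| ≤ 6 f(j)(j-k)/j`, `|f(j)-f(k')| ≤ 6 f(k')(k'-j)/k'`, `f(j) = om(j) ≤ 4 f(k')`, `1/j ≤ 2/k'`: total `≤ 48 f(k')(k'-k)/k'`.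
* `Sm_V`: `(min/max)² max^p ≤ min^p`, `om(x) ≤ x/V`, `min^(p+1) ≤ min³ ≤ j² k²`.
* `Sm_low`: `(min/max)² ≥ δ²`, `om(min) ≥ om(δ max) ≥ δ⁴ om(max)`.
* `om_two`: `om(2x) ≤ 16 om(x)`.
-/

set_option autoImplicit false

open MeasureTheory Set Filter Topology Pool.Agent.H25.Kin Pool.Agent.H48.PL Pool.Agent.H48.PI
open Pool.Agent.H71.PX

namespace Pool.Agent.H85.UT

variable {d : ℕ} {a m κ V j k k' : ℝ}

private lemma usm_aux1 {x y s : ℝ} (hx : 0 < x) (hxy : x ≤ y) (hs2 : s ≤ 2) :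
    (x / y) ^ 2 * y ^ s ≤ x ^ s := by
  have hy : 0 < y := hx.trans_le hxy
  have h1 : (x / y) ^ 2 ≤ (x / y) ^ s := by
    rw [← Real.rpow_two]
    exact Real.rpow_le_rpow_of_exponent_ge (div_pos hx hy) ((div_le_one hy).2 hxy) hs2
  calc (x / y) ^ 2 * y ^ s ≤ (x / y) ^ s * y ^ s :=
        mul_le_mul_of_nonneg_right h1 (Real.rpow_nonneg hy.le _)
    _ = x ^ s := by
        rw [Real.div_rpow hx.le hy.le, div_mul_cancel₀]
        exact (Real.rpow_pos_of_pos hy s).ne'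

private lemma usm_aux2 (hm0 : 0 ≤ m) (hm1 : m ≤ 1) (hV : 1 ≤ V) {t x : ℝ} (ht0 : 0 < t) (ht1 : t ≤ 1)
    (hx : 0 ≤ x) : t ^ 4 * om m V x ≤ om m V (t * x) := by
  have hV0 : 0 < V := by linarith
  have hb0 : 0 ≤ min 1 (x / V) := le_min zero_le_one (div_nonneg hx hV0.le)
  have hb1 : min 1 (x / V) ≤ 1 := min_le_left _ _
  have h1 : t * min 1 (x / V) ≤ min 1 (t * x / V) := by
    refine le_min (by nlinarith) ?_
    rw [mul_div_assoc]
    exact mul_le_mul_of_nonneg_left (min_le_right _ _) ht0.le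
  have h2 : (t * min 1 (x / V)) ^ (4 - m) ≤ min 1 (t * x / V) ^ (4 - m) :=
    Real.rpow_le_rpow (mul_nonneg ht0.le hb0) h1 (by linarith)
  rw [Real.mul_rpow ht0.le hb0] at h2
  have h3 : t ^ 4 ≤ t ^ (4 - m) := by
    have h4 : t ^ (4 : ℝ) ≤ t ^ (4 - m) :=
      Real.rpow_le_rpow_of_exponent_ge ht0 ht1 (by linarith)
    have h5 : t ^ (4 : ℝ) = t ^ 4 := by
      rw [← Real.rpow_natCast]
      norm_num
    rwa [h5] at h4
  exact (mul_le_mul_of_nonneg_right h3 (Real.rpow_nonneg hb0 _)).trans h2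

private lemma usm_lt (h : k ≤ j) : Sm m V j k = (k / j) ^ 2 * om m V k := by
  unfold Sm
  rw [min_eq_right h, max_eq_left h]

private lemma usm_gt (h : j ≤ k) : Sm m V j k = (j / k) ^ 2 * om m V j := by
  unfold Sm
  rw [min_eq_left h, max_eq_right h]

theorem Sm_comm (m V j k : ℝ) : Sm m V j k = Sm m V k j := by
  unfold Sm
  rw [min_comm, max_comm]

theorem Sm_nonneg (hV : 1 ≤ V) (hj : 1 ≤ j) (hk : 1 ≤ k) : 0 ≤ Sm m V j k := by
  exact mul_nonneg (sq_nonneg _) (om_nonneg (by linarith) (le_min (by linarith) (by linarith)))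

theorem Sm_le_one (hm1 : m ≤ 1) (hV : 1 ≤ V) (hj : 1 ≤ j) (hk : 1 ≤ k) : Sm m V j k ≤ 1 := by
  have h1 : 0 < max j k := lt_of_lt_of_le (by linarith) (le_max_left j k)
  have h0 : 0 ≤ min j k := le_min (by linarith) (by linarith)
  have h2 : (min j k / max j k) ^ 2 ≤ 1 := by
    have h3 : min j k / max j k ≤ 1 := (div_le_one h1).2 min_le_max
    have h4 : 0 ≤ min j k / max j k := div_nonneg h0 h1.le
    nlinarith
  exact mul_le_one₀ h2 (om_nonneg (by linarith) h0) (om_le_one hm1 (by linarith) h0)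

theorem Sm_cont (hm1 : m ≤ 1) (V : ℝ) : Continuous fun p : Vec d × Vec d => Sm m V (jb p.1) (jb p.2) := by
  have h1 : Continuous fun p : Vec d × Vec d => jb p.1 := jb_cont.comp continuous_fst
  have h2 : Continuous fun p : Vec d × Vec d => jb p.2 := jb_cont.comp continuous_snd
  unfold Sm om
  refine Continuous.mul ?_ ?_
  · refine ((h1.min h2).div (h1.max h2) fun p => ?_).pow 2
    exact (lt_of_lt_of_le (jb_pos p.1) (le_max_left _ _)).ne'
  · exact (continuous_const.min ((h1.min h2).div_const V)).rpow_const fun p => Or.inr (by linarith)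

theorem Sm_S1 (E : EU a m κ) (hV : 1 ≤ V) (hj : 1 ≤ j) (hk : 1 ≤ k) :
    Sm m V j k * max j k ^ (a + m + κ) ≤ j ^ qx a m κ * (k ^ m * om m V k) := by
  obtain ⟨hm1, hq1, hq2, hq3, hq4, hκ2⟩ := E.facts
  have hm0 := E.hm
  have ha0 := E.ha
  have hκ := E.hκ
  have hj0 : 0 < j := by linarith
  have hk0 : 0 < k := by linarith
  have hV0 : 0 < V := by linarith
  have hom : 0 ≤ om m V k := om_nonneg hV0 hk0.le
  have hjq : j ^ (a + κ) ≤ j ^ qx a m κ := Real.rpow_le_rpow_of_exponent_le hj hq2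
  rcases le_total k j with h | h
  · rw [usm_lt h, max_eq_left h]
    have h1 := usm_aux1 hk0 h (s := m) (by linarith)
    have e : j ^ (a + m + κ) = j ^ m * j ^ (a + κ) := by
      rw [← Real.rpow_add hj0]
      congr 1
      ring
    calc (k / j) ^ 2 * om m V k * j ^ (a + m + κ)
        = ((k / j) ^ 2 * j ^ m) * (j ^ (a + κ) * om m V k) := by rw [e]; ring
      _ ≤ k ^ m * (j ^ qx a m κ * om m V k) := by
          refine mul_le_mul h1 (mul_le_mul_of_nonneg_right hjq hom) ?_ (Real.rpow_nonneg hk0.le _)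
          exact mul_nonneg (Real.rpow_nonneg hj0.le _) hom
      _ = j ^ qx a m κ * (k ^ m * om m V k) := by ring
  · rw [usm_gt h, max_eq_right h]
    have h1 := usm_aux1 hj0 h (s := a + κ) (by linarith)
    have h2 : om m V j ≤ om m V k := om_mono hm1.le hV0 hj0.le h
    have e : k ^ (a + m + κ) = k ^ (a + κ) * k ^ m := by
      rw [← Real.rpow_add hk0]
      congr 1
      ring
    calc (j / k) ^ 2 * om m V j * k ^ (a + m + κ)
        = ((j / k) ^ 2 * k ^ (a + κ)) * (k ^ m * om m V j) := by rw [e]; ring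
      _ ≤ j ^ qx a m κ * (k ^ m * om m V k) := by
          refine mul_le_mul (h1.trans hjq)
            (mul_le_mul_of_nonneg_left h2 (Real.rpow_nonneg hk0.le _)) ?_
            (Real.rpow_nonneg hj0.le _)
          exact mul_nonneg (Real.rpow_nonneg hk0.le _) (om_nonneg hV0 hj0.le)

theorem Sm_S2 (E : EU a m κ) (hV : 1 ≤ V) (hj : 1 ≤ j) (hk : 1 ≤ k) :
    Sm m V j k * max j k ^ qx a m κ ≤ j ^ qx a m κ * om m V k := by
  obtain ⟨hm1, hq1, hq2, hq3, hq4, hκ2⟩ := E.facts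
  have hj0 : 0 < j := by linarith
  have hk0 : 0 < k := by linarith
  have hV0 : 0 < V := by linarith
  have hom : 0 ≤ om m V k := om_nonneg hV0 hk0.le
  rcases le_total k j with h | h
  · rw [usm_lt h, max_eq_left h]
    have h1 : (k / j) ^ 2 ≤ 1 := by
      have h3 : k / j ≤ 1 := (div_le_one hj0).2 h
      have h4 : 0 ≤ k / j := div_nonneg hk0.le hj0.le
      nlinarith
    calc (k / j) ^ 2 * om m V k * j ^ qx a m κ = (k / j) ^ 2 * (j ^ qx a m κ * om m V k) := by ring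
      _ ≤ 1 * (j ^ qx a m κ * om m V k) :=
          mul_le_mul_of_nonneg_right h1 (mul_nonneg (Real.rpow_nonneg hj0.le _) hom)
      _ = j ^ qx a m κ * om m V k := one_mul _
  · rw [usm_gt h, max_eq_right h]
    have h1 := usm_aux1 hj0 h (s := qx a m κ) (by linarith)
    have h2 : om m V j ≤ om m V k := om_mono hm1.le hV0 hj0.le h
    calc (j / k) ^ 2 * om m V j * k ^ qx a m κ = ((j / k) ^ 2 * k ^ qx a m κ) * om m V j := by ring
      _ ≤ j ^ qx a m κ * om m V k :=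
          mul_le_mul h1 h2 (om_nonneg hV0 hj0.le) (Real.rpow_nonneg hj0.le _)

theorem Sm_lip (hm0 : 0 ≤ m) (hm1 : m ≤ 1) (hV : 1 ≤ V) (hj : 1 ≤ j) (hk : 1 ≤ k) (h : k ≤ k') (h2 : k' ≤ 2 * k) :
    |Sm m V j k - Sm m V j k'| ≤ 48 * (Sm m V j k' * ((k' - k) / k')) := by
  have hj0 : 0 < j := by linarith
  have hk0 : 0 < k := by linarith
  have hk'0 : 0 < k' := by linarith
  have hV0 : 0 < V := by linarith
  -- both at most `j`
  have hA : ∀ x y : ℝ, 0 < x → x ≤ y → y ≤ j →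
      |Sm m V j x - Sm m V j y| ≤ 6 * (Sm m V j y * ((y - x) / y)) := by
    intro x y hx hxy hyj
    have hy : 0 < y := hx.trans_le hxy
    rw [usm_lt (hxy.trans hyj), usm_lt hyj]
    obtain ⟨t, ht⟩ : ∃ t, t = x / y := ⟨_, rfl⟩
    have ht0 : 0 < t := by rw [ht]; exact div_pos hx hy
    have ht1 : t ≤ 1 := by rw [ht]; exact (div_le_one hy).2 hxy
    have hxt : x = t * y := by rw [ht]; field_simp
    have h1 := usm_aux2 hm0 hm1 hV ht0 ht1 hy.le
    have h2 : om m V (t * y) ≤ om m V y := om_mono hm1 hV0 (by positivity) (by nlinarith)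
    have h3 : (y - x) / y = 1 - t := by rw [hxt]; field_simp
    have h4 : (x / j) ^ 2 = t ^ 2 * (y / j) ^ 2 := by rw [hxt]; ring
    rw [h3, h4, hxt]
    have hP : 0 ≤ (y / j) ^ 2 := sq_nonneg _
    have hoy : 0 ≤ om m V y := om_nonneg hV0 hy.le
    have hot : 0 ≤ om m V (t * y) := om_nonneg hV0 (by positivity)
    have ht2 : t ^ 2 ≤ 1 := by nlinarith
    have h5 : t ^ 2 * (y / j) ^ 2 * om m V (t * y) ≤ (y / j) ^ 2 * om m V y := by
      calc t ^ 2 * (y / j) ^ 2 * om m V (t * y) = t ^ 2 * ((y / j) ^ 2 * om m V (t * y)) := by ring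
        _ ≤ 1 * ((y / j) ^ 2 * om m V y) :=
            mul_le_mul ht2 (mul_le_mul_of_nonneg_left h2 hP) (mul_nonneg hP hot) zero_le_one
        _ = _ := one_mul _
    rw [abs_sub_comm, abs_of_nonneg (by linarith)]
    have h6 : t ^ 6 * ((y / j) ^ 2 * om m V y) ≤ t ^ 2 * (y / j) ^ 2 * om m V (t * y) := by
      calc t ^ 6 * ((y / j) ^ 2 * om m V y) = (t ^ 2 * (y / j) ^ 2) * (t ^ 4 * om m V y) := by ring
        _ ≤ (t ^ 2 * (y / j) ^ 2) * om m V (t * y) :=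
            mul_le_mul_of_nonneg_left h1 (mul_nonneg (sq_nonneg _) hP)
    have h7 : 1 - 6 * (1 - t) ≤ t ^ 6 := by
      have h8 := one_add_mul_le_pow (a := t - 1) (by linarith) 6
      have e1 : 1 + (t - 1) = t := by ring
      rw [e1] at h8
      push_cast at h8
      linarith
    have h9 : (1 - 6 * (1 - t)) * ((y / j) ^ 2 * om m V y) ≤ t ^ 6 * ((y / j) ^ 2 * om m V y) :=
      mul_le_mul_of_nonneg_right h7 (mul_nonneg hP hoy)
    linarith
  -- both at least `j`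
  have hB : ∀ x y : ℝ, 0 < x → j ≤ x → x ≤ y → y ≤ 2 * x →
      |Sm m V j x - Sm m V j y| ≤ 6 * (Sm m V j y * ((y - x) / y)) := by
    intro x y hx hjx hxy hy2
    have hy : 0 < y := hx.trans_le hxy
    rw [usm_gt hjx, usm_gt (hjx.trans hxy)]
    have hoj : 0 ≤ om m V j := om_nonneg hV0 hj0.le
    have h1 : (j / x) ^ 2 = (j / y) ^ 2 * (y ^ 2 / x ^ 2) := by field_simp
    have h2 : (j / x) ^ 2 * om m V j - (j / y) ^ 2 * om m V j =
        (j / y) ^ 2 * om m V j * (y ^ 2 / x ^ 2 - 1) := by rw [h1]; ring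
    have h3 : y ^ 2 / x ^ 2 - 1 ≤ 6 * ((y - x) / y) := by
      have e1 : y ^ 2 / x ^ 2 - 1 = (y - x) / y * ((y + x) * y / x ^ 2) := by
        field_simp
        ring
      have e2 : (y + x) * y / x ^ 2 ≤ 6 := by
        rw [div_le_iff₀ (by positivity)]
        nlinarith
      rw [e1, mul_comm (6 : ℝ)]
      exact mul_le_mul_of_nonneg_left e2 (div_nonneg (by linarith) hy.le)
    have h4 : 0 ≤ y ^ 2 / x ^ 2 - 1 := by
      have : 1 ≤ y ^ 2 / x ^ 2 := by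
        rw [one_le_div (by positivity)]
        nlinarith
      linarith
    have h5 : 0 ≤ (j / y) ^ 2 * om m V j := mul_nonneg (sq_nonneg _) hoj
    rw [h2, abs_of_nonneg (mul_nonneg h5 h4)]
    calc (j / y) ^ 2 * om m V j * (y ^ 2 / x ^ 2 - 1)
        ≤ (j / y) ^ 2 * om m V j * (6 * ((y - x) / y)) := mul_le_mul_of_nonneg_left h3 h5
      _ = 6 * ((j / y) ^ 2 * om m V j * ((y - x) / y)) := by ring
  have hpos : 0 ≤ Sm m V j k' * ((k' - k) / k') :=
    mul_nonneg (Sm_nonneg hV hj (hk.trans h)) (div_nonneg (by linarith) hk'0.le)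
  rcases le_total k' j with h3 | h3
  · have := hA k k' hk0 h h3
    linarith
  rcases le_total j k with h4 | h4
  · have := hB k k' hk0 h4 h h2
    linarith
  -- `k ≤ j ≤ k'`
  have h5 := hA k j hk0 h4 le_rfl
  have h6 := hB j k' hj0 le_rfl h3 (by linarith)
  have h7 : |Sm m V j k - Sm m V j k'| ≤ |Sm m V j k - Sm m V j j| + |Sm m V j j - Sm m V j k'| :=
    abs_sub_le _ _ _
  have h8 : Sm m V j j ≤ 4 * Sm m V j k' := by
    rw [usm_lt le_rfl, usm_gt h3, div_self hj0.ne']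
    have h9 : 1 / 4 ≤ (j / k') ^ 2 := by
      have h10 : 1 / 2 ≤ j / k' := by
        rw [div_le_div_iff₀ (by norm_num) hk'0]
        linarith
      nlinarith
    have h11 : 0 ≤ om m V j := om_nonneg hV0 hj0.le
    nlinarith
  have h9 : (j - k) / j ≤ 2 * ((j - k) / k') := by
    have e : 2 * ((j - k) / k') = (2 * (j - k)) / k' := by ring
    rw [e, div_le_div_iff₀ hj0 hk'0]
    nlinarith
  have h10 : 0 ≤ Sm m V j k' := Sm_nonneg hV hj (hk.trans h)
  have h11 : 0 ≤ (j - k) / j := div_nonneg (by linarith) hj0.le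
  have h12 : 6 * (Sm m V j j * ((j - k) / j)) ≤ 48 * (Sm m V j k' * ((j - k) / k')) := by
    have h13 : Sm m V j j * ((j - k) / j) ≤ 4 * Sm m V j k' * (2 * ((j - k) / k')) :=
      mul_le_mul h8 h9 h11 (by linarith)
    linarith
  have h14 : 0 ≤ Sm m V j k' * ((k' - j) / k') :=
    mul_nonneg h10 (div_nonneg (by linarith) hk'0.le)
  have e2 : Sm m V j k' * ((k' - k) / k') =
      Sm m V j k' * ((j - k) / k') + Sm m V j k' * ((k' - j) / k') := by ring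
  rw [e2]
  linarith

theorem Sm_V (hm1 : m ≤ 1) (hV : 1 ≤ V) (hj : 1 ≤ j) (hk : 1 ≤ k) {p : ℝ} (hp : 0 ≤ p) (hp2 : p ≤ 2) :
    Sm m V j k * max j k ^ p ≤ V ^ (-1 : ℝ) * (j ^ 2 * k ^ 2) := by
  have hV0 : 0 < V := by linarith
  obtain ⟨x, hx⟩ : ∃ x, x = min j k := ⟨_, rfl⟩
  obtain ⟨y, hy⟩ : ∃ y, y = max j k := ⟨_, rfl⟩
  have hx1 : 1 ≤ x := by rw [hx]; exact le_min hj hk
  have hxy : x ≤ y := by rw [hx, hy]; exact min_le_max
  have hx0 : 0 < x := by linarith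
  have hy0 : 0 < y := by linarith
  have hjk : j ^ 2 * k ^ 2 = x ^ 2 * y ^ 2 := by
    rcases le_total j k with h | h
    · rw [hx, hy, min_eq_left h, max_eq_right h]
    · rw [hx, hy, min_eq_right h, max_eq_left h]
      ring
  unfold Sm
  rw [← hx, ← hy, hjk]
  have h1 := usm_aux1 hx0 hxy (s := p) hp2
  have hb0 : 0 < min 1 (x / V) := lt_min one_pos (div_pos hx0 hV0)
  have h2 : om m V x ≤ x / V := by
    have h3 : min 1 (x / V) ^ (4 - m) ≤ min 1 (x / V) ^ (1 : ℝ) :=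
      Real.rpow_le_rpow_of_exponent_ge hb0 (min_le_left _ _) (by linarith)
    rw [Real.rpow_one] at h3
    exact h3.trans (min_le_right _ _)
  have h4 : x ^ p ≤ x ^ 2 := by
    rw [← Real.rpow_two]
    exact Real.rpow_le_rpow_of_exponent_le hx1 hp2
  calc (x / y) ^ 2 * om m V x * y ^ p = ((x / y) ^ 2 * y ^ p) * om m V x := by ring
    _ ≤ x ^ 2 * (x / V) :=
        mul_le_mul (h1.trans h4) h2 (om_nonneg hV0 hx0.le) (sq_nonneg _)
    _ = V ^ (-1 : ℝ) * (x ^ 2 * x) := by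
        rw [Real.rpow_neg_one]
        field_simp
    _ ≤ V ^ (-1 : ℝ) * (x ^ 2 * y ^ 2) := by
        refine mul_le_mul_of_nonneg_left ?_ (Real.rpow_nonneg hV0.le _)
        refine mul_le_mul_of_nonneg_left ?_ (sq_nonneg _)
        nlinarith

theorem Sm_low (hm0 : 0 ≤ m) (hm1 : m ≤ 1) (hV : 1 ≤ V) (hj : 1 ≤ j) (hk : 1 ≤ k) {δ : ℝ} (hδ : 0 < δ) (hδ1 : δ ≤ 1)
    (h : δ * max j k ≤ min j k) : δ ^ 6 * om m V (max j k) ≤ Sm m V j k := by
  have hV0 : 0 < V := by linarith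
  obtain ⟨x, hx⟩ : ∃ x, x = min j k := ⟨_, rfl⟩
  obtain ⟨y, hy⟩ : ∃ y, y = max j k := ⟨_, rfl⟩
  have hx1 : 1 ≤ x := by rw [hx]; exact le_min hj hk
  have hxy : x ≤ y := by rw [hx, hy]; exact min_le_max
  have hx0 : 0 < x := by linarith
  have hy0 : 0 < y := by linarith
  rw [← hx, ← hy] at h
  unfold Sm
  rw [← hx, ← hy]
  have h1 := usm_aux2 hm0 hm1 hV hδ hδ1 hy0.le
  have h2 : om m V (δ * y) ≤ om m V x := om_mono hm1 hV0 (by positivity) h
  have h3 : δ ≤ x / y := by rwa [le_div_iff₀ hy0]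
  have h4 : δ ^ 2 ≤ (x / y) ^ 2 := by nlinarith
  calc δ ^ 6 * om m V y = δ ^ 2 * (δ ^ 4 * om m V y) := by ring
    _ ≤ (x / y) ^ 2 * om m V x :=
        mul_le_mul h4 (h1.trans h2) (mul_nonneg (by positivity) (om_nonneg hV0 hy0.le)) (sq_nonneg _)

theorem om_two (hm0 : 0 ≤ m) (hm1 : m ≤ 1) (hV : 1 ≤ V) {x : ℝ} (hx : 0 ≤ x) : om m V (2 * x) ≤ 16 * om m V x := by
  have h1 := usm_aux2 hm0 hm1 hV (t := 1 / 2) (by norm_num) (by norm_num) (x := 2 * x) (by linarith)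
  have e : 1 / 2 * (2 * x) = x := by ring
  rw [e] at h1
  linarith

end Pool.Agent.H85.UT
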