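import Pool.Agent.H85.UT.UDef
import Pool.Agent.H48.PL.JB

/-!
# Module UTh: the function `Th0`

`x : Vec d`, `L = len x`, `J = jb x`, `A = L^(1+a) J^m`, `D = ε J^(-κ) L`, `Th0 x = A x_e/(x_e²+D²)`. `Q = qx a m κ`.
* `Th0_abs`: `|x_e|/(x_e²+D²) ≤ 1/(2D)` (AM-GM; `L = 0`: both sides are `0`), `A/D = L^a J^(m+κ)/ε`.
* `xTh0_low`: `D ≤ |x_e|` gives `x_e²/(x_e²+D²) ≥ 1/2` for `L > 0`.
* `Th0_hol`: `h = len (x-y)`, by symmetry `len y ≤ len x = L` (so `jb y ≤ jb x = J`). (A) `L ≤ 2h`: `|Th0 x|, |Th0 y| ≤ L^a J^(m+κ)/ε`, `L^a = L^(a-m) L^m ≤ J^(a-m)(2h)^m`, total `≤ (4/ε) J^(a+κ) h^m ≤ (4/ε) J^Q h^m`.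
  (B) `2h < L`: then `L/2 ≤ len y ≤ L`, `J/2 ≤ jb y ≤ J`, all quantities `A, D` of `x` and `y` are comparable (factor `16`) and `|A-A'| ≤ C A h/L`, `|D-D'| ≤ C D h/L` (mean value or Bernoulli for the powers of `len` and `jb`, `|len x-len y| ≤ h`, `|jb x-jb y| ≤ h` (`jb_lip`), `jb ≥ len`).
  With `x_e = p`, `y_e = p'`: `p/(p²+D²) - p'/(p'²+D'²) = [p p'(p'-p) + (p-p')D'² + p'(D'²-D²)]/((p²+D²)(p'²+D'²))`; the three terms are `≤ h/(D D')`, `≤ h/D²`, `≤ |D-D'|(D+D')/(D² D')` in absolute value: `≤ C h/D² + C (h/L)/D ≤ C(1+ε) h/D²`.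
  So `|Th0 x - Th0 y| ≤ C A h/D² + C A (h/L)/D ≤ C' h L^(a-1) J^(m+2κ)` and also `≤ (2/ε) L^a J^(m+κ)`: `min(X, Y) ≤ X^m Y^(1-m)`: `≤ C'' h^m L^((a-1)m+a(1-m)) J^((m+2κ)m+(m+κ)(1-m)) = C'' h^m L^(a-m) J^(m+κ(1+m)) ≤ C'' h^m J^Q` (`L ≤ J`, `m ≤ a`).
* `Th0_cont`: from `Th0_hol`.
-/

set_option autoImplicit false

open MeasureTheory Set Filter Topology Pool.Agent.H25.Kin Pool.Agent.H48.PL Pool.Agent.H48.PI
open Pool.Agent.H71.PX

namespace Pool.Agent.H85.UT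

variable {d : ℕ} {a m κ ε : ℝ}

private lemma uth_amgm {p D : ℝ} (hD : 0 < D) : |p| / (p ^ 2 + D ^ 2) ≤ 1 / (2 * D) := by
  have hN : 0 < p ^ 2 + D ^ 2 := by positivity
  rw [div_le_div_iff₀ hN (by positivity)]
  have h1 := sq_nonneg (|p| - D)
  have h2 := sq_abs p
  nlinarith

private lemma uth_fdiff {p p' D D' : ℝ} (hD : 0 < D) (hD' : 0 < D') :
    |p / (p ^ 2 + D ^ 2) - p' / (p' ^ 2 + D' ^ 2)| ≤
      |p - p'| / (4 * D * D') + |p - p'| / D ^ 2 + |D - D'| * (D + D') / (2 * D' * D ^ 2) := by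
  have hN : 0 < p ^ 2 + D ^ 2 := by positivity
  have hN' : 0 < p' ^ 2 + D' ^ 2 := by positivity
  have hF := uth_amgm (p := p) hD
  have hF' := uth_amgm (p := p') hD'
  have hF0 : 0 ≤ |p| / (p ^ 2 + D ^ 2) := by positivity
  have hF0' : 0 ≤ |p'| / (p' ^ 2 + D' ^ 2) := by positivity
  have e : p / (p ^ 2 + D ^ 2) - p' / (p' ^ 2 + D' ^ 2) =
      p / (p ^ 2 + D ^ 2) * (p' / (p' ^ 2 + D' ^ 2)) * (p' - p) +
      (p - p') * (1 / (p ^ 2 + D ^ 2)) * (D' ^ 2 / (p' ^ 2 + D' ^ 2)) +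
      p' / (p' ^ 2 + D' ^ 2) * ((D' ^ 2 - D ^ 2) / (p ^ 2 + D ^ 2)) := by
    field_simp
    ring
  rw [e]
  refine (abs_add_le _ _).trans (add_le_add ((abs_add_le _ _).trans (add_le_add ?_ ?_)) ?_)
  · rw [abs_mul, abs_mul, abs_div, abs_div, abs_of_pos hN, abs_of_pos hN', abs_sub_comm p' p]
    calc |p| / (p ^ 2 + D ^ 2) * (|p'| / (p' ^ 2 + D' ^ 2)) * |p - p'| ≤
        1 / (2 * D) * (1 / (2 * D')) * |p - p'| := by gcongr
      _ = |p - p'| / (4 * D * D') := by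
        field_simp
        ring
  · rw [abs_mul, abs_mul, abs_of_nonneg (by positivity : 0 ≤ 1 / (p ^ 2 + D ^ 2)),
      abs_of_nonneg (by positivity : 0 ≤ D' ^ 2 / (p' ^ 2 + D' ^ 2))]
    have h1 : 1 / (p ^ 2 + D ^ 2) ≤ 1 / D ^ 2 := by
      apply one_div_le_one_div_of_le (by positivity)
      nlinarith [sq_nonneg p]
    have h2 : D' ^ 2 / (p' ^ 2 + D' ^ 2) ≤ 1 := by
      rw [div_le_one hN']
      nlinarith [sq_nonneg p']
    calc |p - p'| * (1 / (p ^ 2 + D ^ 2)) * (D' ^ 2 / (p' ^ 2 + D' ^ 2)) ≤ |p - p'| * (1 / D ^ 2) * 1 := by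
          gcongr
      _ = |p - p'| / D ^ 2 := by ring
  · rw [abs_mul, abs_div, abs_div, abs_of_pos hN, abs_of_pos hN']
    have h1 : |D' ^ 2 - D ^ 2| = |D - D'| * (D + D') := by
      have h3 : D' ^ 2 - D ^ 2 = -((D - D') * (D + D')) := by ring
      rw [h3, abs_neg, abs_mul, abs_of_pos (by positivity : 0 < D + D')]
    have h2 : |D - D'| * (D + D') / (p ^ 2 + D ^ 2) ≤ |D - D'| * (D + D') / D ^ 2 := by
      apply div_le_div_of_nonneg_left (by positivity) (by positivity)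
      nlinarith [sq_nonneg p]
    rw [h1]
    calc |p'| / (p' ^ 2 + D' ^ 2) * (|D - D'| * (D + D') / (p ^ 2 + D ^ 2)) ≤
        1 / (2 * D') * (|D - D'| * (D + D') / D ^ 2) := by gcongr
      _ = |D - D'| * (D + D') / (2 * D' * D ^ 2) := by
        field_simp

/-- the difference of the products, all quantities comparable -/
private lemma uth_prod {A A' D D' p p' τ h B : ℝ} (hA : 0 ≤ A) (hA' : 0 ≤ A') (hAA : A' ≤ A)
    (h3 : A - A' ≤ 3 * τ * A) (hD : 0 < D) (hD' : 0 < D') (hDD : D ≤ 2 * D') (h6 : |D - D'| ≤ 6 * τ * D)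
    (hτ : 0 ≤ τ) (hp : |p - p'| ≤ h) (hτD : τ * D ≤ B * h) :
    |A * (p / (p ^ 2 + D ^ 2)) - A' * (p' / (p' ^ 2 + D' ^ 2))| ≤ A * (h / D ^ 2) * (3 / 2 + 21 / 2 * B) := by
  have hh : 0 ≤ h := (abs_nonneg _).trans hp
  have hF := uth_amgm (p := p) hD
  have hFd := uth_fdiff (p := p) (p' := p') hD hD'
  have e : A * (p / (p ^ 2 + D ^ 2)) - A' * (p' / (p' ^ 2 + D' ^ 2)) =
      (A - A') * (p / (p ^ 2 + D ^ 2)) + A' * (p / (p ^ 2 + D ^ 2) - p' / (p' ^ 2 + D' ^ 2)) := by ring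
  rw [e]
  refine (abs_add_le _ _).trans ?_
  rw [abs_mul, abs_mul, abs_of_nonneg (by linarith : 0 ≤ A - A'), abs_of_nonneg hA', abs_div,
    abs_of_nonneg (by positivity : 0 ≤ p ^ 2 + D ^ 2)]
  have t1 : (A - A') * (|p| / (p ^ 2 + D ^ 2)) ≤ 3 * τ * A * (1 / (2 * D)) :=
    mul_le_mul h3 hF (by positivity) (by positivity)
  have t2 : |p - p'| / (4 * D * D') ≤ h / (2 * D ^ 2) := by
    rw [div_le_div_iff₀ (by positivity) (by positivity)]
    have : |p - p'| * (2 * D ^ 2) ≤ h * (2 * D ^ 2) := mul_le_mul_of_nonneg_right hp (by positivity)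
    have h7 : h * (2 * D ^ 2) ≤ h * (4 * D * D') := by
      apply mul_le_mul_of_nonneg_left _ hh
      nlinarith
    linarith
  have t3 : |p - p'| / D ^ 2 ≤ h / D ^ 2 := div_le_div_of_nonneg_right hp (by positivity)
  have t4 : |D - D'| * (D + D') / (2 * D' * D ^ 2) ≤ 9 * τ / D := by
    rw [div_le_div_iff₀ (by positivity) hD]
    have h8 : |D - D'| * (D + D') ≤ 6 * τ * D * (3 * D') :=
      mul_le_mul h6 (by linarith) (by positivity) (by positivity)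
    calc |D - D'| * (D + D') * D ≤ 6 * τ * D * (3 * D') * D := mul_le_mul_of_nonneg_right h8 hD.le
      _ = 9 * τ * (2 * D' * D ^ 2) := by ring
  have t5 : |p / (p ^ 2 + D ^ 2) - p' / (p' ^ 2 + D' ^ 2)| ≤ 3 / 2 * (h / D ^ 2) + 9 * τ / D := by
    have : h / (2 * D ^ 2) = 1 / 2 * (h / D ^ 2) := by
      field_simp
    rw [this] at t2
    linarith
  have t6 : A' * |p / (p ^ 2 + D ^ 2) - p' / (p' ^ 2 + D' ^ 2)| ≤ A * (3 / 2 * (h / D ^ 2) + 9 * τ / D) :=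
    mul_le_mul hAA t5 (abs_nonneg _) hA
  have t7 : τ / D ≤ B * (h / D ^ 2) := by
    rw [div_le_iff₀ hD]
    have : B * (h / D ^ 2) * D = B * h / D := by
      field_simp
    rw [this, le_div_iff₀ hD]
    exact hτD
  have t8 : A * (τ / D) ≤ A * (B * (h / D ^ 2)) := mul_le_mul_of_nonneg_left t7 hA
  have e1 : 3 * τ * A * (1 / (2 * D)) = 3 / 2 * (A * (τ / D)) := by
    field_simp
  have e2 : A * (3 / 2 * (h / D ^ 2) + 9 * τ / D) = 3 / 2 * (A * (h / D ^ 2)) + 9 * (A * (τ / D)) := by ring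
  have e3 : A * (h / D ^ 2) * (3 / 2 + 21 / 2 * B) = 3 / 2 * (A * (h / D ^ 2)) +
    21 / 2 * (A * (B * (h / D ^ 2))) := by ring
  rw [e1] at t1
  rw [e2] at t6
  rw [e3]
  linarith

theorem Th0_neg (e : Fin d) (a m κ ε : ℝ) (x : Vec d) : Th0 e a m κ ε (-x) = -Th0 e a m κ ε x := by
  have h1 : jb (-x) = jb x := by
    unfold jb
    rw [Pool.Agent.H25.Kin.sq_neg]
  unfold Th0
  rw [h1, len_neg, Pi.neg_apply]
  have h2 : (-x e) ^ 2 = x e ^ 2 := by ring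
  rw [h2]
  ring

private lemma uth_len0 {x : Vec d} (h : len x = 0) : x = 0 := by
  by_contra hx
  exact (len_pos hx).ne' h

private lemma uth_zero (E : EU a m κ) (e : Fin d) : Th0 e a m κ ε (0 : Vec d) = 0 := by
  unfold Th0
  simp

/-- `A/D = P/ε` -/
private lemma uth_AD (hε : 0 < ε) {L J : ℝ} (hL : 0 < L) (hJ : 0 < J) :
    L ^ (1 + a) * J ^ m = ε⁻¹ * (L ^ a * J ^ (m + κ)) * (ε * J ^ (-κ) * L) := by
  rw [Real.rpow_add hL, Real.rpow_one, Real.rpow_add hJ, Real.rpow_neg hJ.le]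
  have h1 : J ^ κ ≠ 0 := (Real.rpow_pos_of_pos hJ κ).ne'
  field_simp

theorem Th0_abs (E : EU a m κ) (hε : 0 < ε) (e : Fin d) (x : Vec d) :
    |Th0 e a m κ ε x| ≤ ε⁻¹ * (len x ^ a * jb x ^ (m + κ)) := by
  have hJ := jb_pos x
  have hR : 0 ≤ ε⁻¹ * (len x ^ a * jb x ^ (m + κ)) :=
    mul_nonneg (inv_nonneg.2 hε.le) (mul_nonneg (Real.rpow_nonneg (len_nonneg x) _)
      (Real.rpow_nonneg hJ.le _))
  rcases (len_nonneg x).eq_or_lt with h | h
  · rw [uth_len0 h.symm, uth_zero E, abs_zero]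
    rw [uth_len0 h.symm] at hR
    exact hR
  · have hD : 0 < ε * jb x ^ (-κ) * len x := by positivity
    unfold Th0
    have hA : 0 ≤ len x ^ (1 + a) * jb x ^ m := by positivity
    have hN : 0 < x e ^ 2 + (ε * jb x ^ (-κ) * len x) ^ 2 := by positivity
    rw [abs_mul, abs_of_nonneg hA, abs_div, abs_of_pos hN]
    have h1 := uth_amgm (p := x e) hD
    have h2 := mul_le_mul_of_nonneg_left h1 hA
    refine h2.trans ?_
    rw [uth_AD (κ := κ) hε h hJ]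
    have hP : 0 ≤ ε⁻¹ * (len x ^ a * jb x ^ (m + κ)) := hR
    calc ε⁻¹ * (len x ^ a * jb x ^ (m + κ)) * (ε * jb x ^ (-κ) * len x) *
        (1 / (2 * (ε * jb x ^ (-κ) * len x))) = 1 / 2 * (ε⁻¹ * (len x ^ a * jb x ^ (m + κ))) := by
          field_simp
      _ ≤ ε⁻¹ * (len x ^ a * jb x ^ (m + κ)) := by linarith

theorem xTh0_nonneg (e : Fin d) (a m κ ε : ℝ) (x : Vec d) : 0 ≤ x e * Th0 e a m κ ε x := by
  unfold Th0
  have h1 : x e * (len x ^ (1 + a) * jb x ^ m * (x e / (x e ^ 2 + (ε * jb x ^ (-κ) * len x) ^ 2))) =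
      len x ^ (1 + a) * jb x ^ m * (x e ^ 2 / (x e ^ 2 + (ε * jb x ^ (-κ) * len x) ^ 2)) := by ring
  rw [h1]
  have h2 := len_nonneg x
  have h3 := jb_pos x
  positivity

theorem xTh0_le (e : Fin d) (a m κ ε : ℝ) (x : Vec d) : x e * Th0 e a m κ ε x ≤ len x ^ (1 + a) * jb x ^ m := by
  unfold Th0
  have h1 : x e * (len x ^ (1 + a) * jb x ^ m * (x e / (x e ^ 2 + (ε * jb x ^ (-κ) * len x) ^ 2))) =
      len x ^ (1 + a) * jb x ^ m * (x e ^ 2 / (x e ^ 2 + (ε * jb x ^ (-κ) * len x) ^ 2)) := by ring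
  rw [h1]
  have h2 := len_nonneg x
  have h3 := jb_pos x
  refine mul_le_of_le_one_right (by positivity) ?_
  refine div_le_one_of_le₀ ?_ (by positivity)
  nlinarith [sq_nonneg (ε * jb x ^ (-κ) * len x)]

theorem xTh0_low (E : EU a m κ) (hε : 0 < ε) (e : Fin d) {x : Vec d} (h : ε * jb x ^ (-κ) * len x ≤ |x e|) :
    len x ^ (1 + a) * jb x ^ m ≤ 2 * (x e * Th0 e a m κ ε x) := by
  have ha := E.ha
  rcases (len_nonneg x).eq_or_lt with h0 | h0
  · rw [← h0, Real.zero_rpow (by linarith), zero_mul]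
    have := xTh0_nonneg e a m κ ε x
    linarith
  · have hJ := jb_pos x
    have hD : 0 < ε * jb x ^ (-κ) * len x := by positivity
    unfold Th0
    have h1 : x e * (len x ^ (1 + a) * jb x ^ m * (x e / (x e ^ 2 + (ε * jb x ^ (-κ) * len x) ^ 2))) =
        len x ^ (1 + a) * jb x ^ m * (x e ^ 2 / (x e ^ 2 + (ε * jb x ^ (-κ) * len x) ^ 2)) := by ring
    rw [h1]
    have hN : 0 < x e ^ 2 + (ε * jb x ^ (-κ) * len x) ^ 2 := by positivity
    have h2 : 1 / 2 ≤ x e ^ 2 / (x e ^ 2 + (ε * jb x ^ (-κ) * len x) ^ 2) := by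
      rw [div_le_div_iff₀ (by norm_num) hN]
      have h3 : (ε * jb x ^ (-κ) * len x) ^ 2 ≤ x e ^ 2 := by
        rw [← sq_abs (x e)]
        exact pow_le_pow_left₀ hD.le h 2
      linarith
    have hA : 0 ≤ len x ^ (1 + a) * jb x ^ m := by positivity
    have h4 := mul_le_mul_of_nonneg_left h2 hA
    linarith

/-- comparison of the powers -/
private lemma uth_A (E : EU a m κ) {L L' J J' τ : ℝ} (hL' : 0 < L') (hJ' : 0 < J') (hLL : L' ≤ L)
    (hJJ : J' ≤ J) (hτ : 0 ≤ τ) (hτ1 : τ ≤ 1 / 2) (h1 : (1 - τ) * L ≤ L') (h2 : (1 - τ) * J ≤ J') :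
    L' ^ (1 + a) * J' ^ m ≤ L ^ (1 + a) * J ^ m ∧
    L ^ (1 + a) * J ^ m - L' ^ (1 + a) * J' ^ m ≤ 3 * τ * (L ^ (1 + a) * J ^ m) := by
  have ha := E.ha
  have ha1 := E.ha1
  have hm := E.hm
  have hm1 := E.facts.1
  have hL : 0 < L := hL'.trans_le hLL
  have hJ : 0 < J := hJ'.trans_le hJJ
  have c1 : L' ^ (1 + a) ≤ L ^ (1 + a) := Real.rpow_le_rpow hL'.le hLL (by linarith)
  have c2 : J' ^ m ≤ J ^ m := Real.rpow_le_rpow hJ'.le hJJ hm.le
  refine ⟨mul_le_mul c1 c2 (by positivity) (by positivity), ?_⟩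
  have hτ2 : 0 < 1 - τ := by linarith
  have hτ3 : 1 - τ ≤ 1 := by linarith
  have d1 : (1 - τ) ^ 2 * L ^ (1 + a) ≤ L' ^ (1 + a) := by
    calc (1 - τ) ^ 2 * L ^ (1 + a) ≤ (1 - τ) ^ (1 + a) * L ^ (1 + a) := by
          refine mul_le_mul_of_nonneg_right ?_ (by positivity)
          rw [← Real.rpow_two]
          exact Real.rpow_le_rpow_of_exponent_ge hτ2 hτ3 (by linarith)
      _ = ((1 - τ) * L) ^ (1 + a) := (Real.mul_rpow hτ2.le hL.le).symm
      _ ≤ L' ^ (1 + a) := Real.rpow_le_rpow (by positivity) h1 (by linarith)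
  have d2 : (1 - τ) * J ^ m ≤ J' ^ m := by
    calc (1 - τ) * J ^ m ≤ (1 - τ) ^ m * J ^ m := by
          refine mul_le_mul_of_nonneg_right ?_ (by positivity)
          calc (1 - τ) = (1 - τ) ^ (1 : ℝ) := (Real.rpow_one _).symm
            _ ≤ (1 - τ) ^ m := Real.rpow_le_rpow_of_exponent_ge hτ2 hτ3 hm1.le
      _ = ((1 - τ) * J) ^ m := (Real.mul_rpow hτ2.le hJ.le).symm
      _ ≤ J' ^ m := Real.rpow_le_rpow (by positivity) h2 hm.le
  have d3 : (1 - τ) ^ 3 * (L ^ (1 + a) * J ^ m) ≤ L' ^ (1 + a) * J' ^ m := by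
    calc (1 - τ) ^ 3 * (L ^ (1 + a) * J ^ m) = ((1 - τ) ^ 2 * L ^ (1 + a)) * ((1 - τ) * J ^ m) := by ring
      _ ≤ L' ^ (1 + a) * J' ^ m := mul_le_mul d1 d2 (by positivity) (by positivity)
  have d4 : 1 - 3 * τ ≤ (1 - τ) ^ 3 := by nlinarith [mul_nonneg hτ hτ, mul_nonneg (mul_nonneg hτ hτ) hτ2.le]
  have hA : 0 ≤ L ^ (1 + a) * J ^ m := by positivity
  have d5 := mul_le_mul_of_nonneg_right d4 hA
  nlinarith

private lemma uth_D (E : EU a m κ) (hε : 0 < ε) {L L' J J' τ : ℝ} (hL' : 0 < L') (hJ' : 0 < J') (hLL : L' ≤ L)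
    (hJJ : J' ≤ J) (hτ : 0 ≤ τ) (hτ1 : τ ≤ 1 / 2) (h1 : (1 - τ) * L ≤ L') (h2 : (1 - τ) * J ≤ J') :
    ε * J ^ (-κ) * L ≤ 2 * (ε * J' ^ (-κ) * L') ∧
    |ε * J ^ (-κ) * L - ε * J' ^ (-κ) * L'| ≤ 6 * τ * (ε * J ^ (-κ) * L) := by
  have hκ := E.hκ
  have hκ2 := E.facts.2.2.2.2.2
  have hL : 0 < L := hL'.trans_le hLL
  have hJ : 0 < J := hJ'.trans_le hJJ
  have hτ2 : 0 < 1 - τ := by linarith
  have hτ3 : 1 - τ ≤ 1 := by linarith
  have c1 : J ^ (-κ) ≤ J' ^ (-κ) := Real.rpow_le_rpow_of_nonpos hJ' hJJ (by linarith)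
  have hJk : 0 < J ^ (-κ) := Real.rpow_pos_of_pos hJ _
  have hJk' : 0 < J' ^ (-κ) := Real.rpow_pos_of_pos hJ' _
  -- lower bound of D'
  have d1 : (1 - τ) * (ε * J ^ (-κ) * L) ≤ ε * J' ^ (-κ) * L' := by
    calc (1 - τ) * (ε * J ^ (-κ) * L) = ε * J ^ (-κ) * ((1 - τ) * L) := by ring
      _ ≤ ε * J' ^ (-κ) * L' := mul_le_mul (mul_le_mul_of_nonneg_left c1 hε.le) h1 (by positivity)
          (by positivity)
  -- upper bound of D'
  have d2 : J' ^ (-κ) ≤ (1 + 6 * τ) * J ^ (-κ) := by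
    have e1 : J' ^ (-κ) ≤ ((1 - τ) * J) ^ (-κ) :=
      Real.rpow_le_rpow_of_nonpos (by positivity) h2 (by linarith)
    have e2 : ((1 - τ) * J) ^ (-κ) = (1 - τ) ^ (-κ) * J ^ (-κ) := Real.mul_rpow hτ2.le hJ.le
    have e3 : (1 - τ) ^ (-κ) ≤ (1 - τ) ^ (-2 : ℝ) :=
      Real.rpow_le_rpow_of_exponent_ge hτ2 hτ3 (by linarith)
    have e4 : (1 - τ) ^ (-2 : ℝ) = ((1 - τ) ^ 2)⁻¹ := by
      rw [Real.rpow_neg hτ2.le, Real.rpow_two]
    have e5 : ((1 - τ) ^ 2)⁻¹ ≤ 1 + 6 * τ := by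
      rw [inv_le_comm₀ (by positivity) (by positivity), inv_eq_one_div,
        div_le_iff₀ (by positivity)]
      nlinarith [mul_nonneg hτ (by linarith : 0 ≤ 1 / 2 - τ), mul_nonneg (mul_nonneg hτ hτ) (by linarith : 0 ≤ 1 / 2 - τ)]
    calc J' ^ (-κ) ≤ (1 - τ) ^ (-κ) * J ^ (-κ) := by rw [← e2]; exact e1
      _ ≤ (1 + 6 * τ) * J ^ (-κ) := by
          refine mul_le_mul_of_nonneg_right ?_ hJk.le
          calc (1 - τ) ^ (-κ) ≤ (1 - τ) ^ (-2 : ℝ) := e3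
            _ = ((1 - τ) ^ 2)⁻¹ := e4
            _ ≤ _ := e5
  have d3 : ε * J' ^ (-κ) * L' ≤ (1 + 6 * τ) * (ε * J ^ (-κ) * L) := by
    calc ε * J' ^ (-κ) * L' ≤ ε * ((1 + 6 * τ) * J ^ (-κ)) * L :=
          mul_le_mul (mul_le_mul_of_nonneg_left d2 hε.le) hLL hL'.le (by positivity)
      _ = (1 + 6 * τ) * (ε * J ^ (-κ) * L) := by ring
  have hD : 0 < ε * J ^ (-κ) * L := by positivity
  refine ⟨?_, ?_⟩
  · have : (1 / 2 : ℝ) * (ε * J ^ (-κ) * L) ≤ (1 - τ) * (ε * J ^ (-κ) * L) :=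
      mul_le_mul_of_nonneg_right (by linarith) hD.le
    linarith
  · rw [abs_le]
    constructor
    · linarith
    · have : 0 ≤ τ * (ε * J ^ (-κ) * L) := mul_nonneg hτ hD.le
      nlinarith

/-- the interpolation -/
private lemma uth_interp (E : EU a m κ) {L J h X K : ℝ} (hL : 0 < L) (hJ : 1 ≤ J) (hLJ : L ≤ J) (hh : 0 ≤ h)
    (hK : 0 ≤ K) (h1 : X ≤ K * (L ^ a * J ^ (m + κ) * (h * J ^ κ / L)))
    (h2 : X ≤ K * (L ^ a * J ^ (m + κ))) : X ≤ K * (J ^ qx a m κ * h ^ m) := by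
  have hJ0 : 0 < J := by linarith
  have hm := E.hm
  have hm1 := E.facts.1
  have hma := E.hma
  obtain ⟨ρ, hρ⟩ : ∃ ρ, ρ = h * J ^ κ / L := ⟨_, rfl⟩
  have hρ0 : 0 ≤ ρ := by rw [hρ]; positivity
  have hP : 0 ≤ L ^ a * J ^ (m + κ) := by positivity
  have h3 : X ≤ K * (L ^ a * J ^ (m + κ) * ρ ^ m) := by
    rcases le_total ρ 1 with hr | hr
    · rcases hρ0.eq_or_lt with h0 | h0
      · rw [← hρ, ← h0, mul_zero] at h1
        refine h1.trans ?_
        rw [mul_zero]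
        positivity
      · refine h1.trans ?_
        rw [← hρ]
        refine mul_le_mul_of_nonneg_left (mul_le_mul_of_nonneg_left ?_ hP) hK
        calc ρ = ρ ^ (1 : ℝ) := (Real.rpow_one _).symm
          _ ≤ ρ ^ m := Real.rpow_le_rpow_of_exponent_ge h0 hr hm1.le
    · refine h2.trans ?_
      refine mul_le_mul_of_nonneg_left ?_ hK
      exact le_mul_of_one_le_right hP (Real.one_le_rpow hr hm.le)
  refine h3.trans (mul_le_mul_of_nonneg_left ?_ hK)
  have e1 : ρ ^ m = h ^ m * J ^ (κ * m) * (L ^ m)⁻¹ := by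
    rw [hρ, Real.div_rpow (by positivity) hL.le, Real.mul_rpow hh (by positivity), ← Real.rpow_mul hJ0.le]
    rfl
  have e2 : L ^ a = L ^ (a - m) * L ^ m := by
    rw [← Real.rpow_add hL]
    congr 1
    ring
  have e3 : L ^ (a - m) ≤ J ^ (a - m) := Real.rpow_le_rpow hL.le hLJ (by linarith)
  have hLm : 0 < L ^ m := by positivity
  calc L ^ a * J ^ (m + κ) * ρ ^ m = L ^ (a - m) * (J ^ (m + κ) * (h ^ m * J ^ (κ * m))) := by
        rw [e1, e2]
        field_simp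
    _ ≤ J ^ (a - m) * (J ^ (m + κ) * (h ^ m * J ^ (κ * m))) :=
        mul_le_mul_of_nonneg_right e3 (by positivity)
    _ = J ^ (a - m) * J ^ (m + κ) * J ^ (κ * m) * h ^ m := by ring
    _ = J ^ qx a m κ * h ^ m := by
        rw [← Real.rpow_add hJ0, ← Real.rpow_add hJ0]
        unfold qx
        congr 2
        ring

theorem Th0_hol (E : EU a m κ) (hε : 0 < ε) : ∃ K : ℝ, 0 ≤ K ∧ ∀ (e : Fin d) (x y : Vec d),
    |Th0 e a m κ ε x - Th0 e a m κ ε y| ≤ K * (max (jb x) (jb y) ^ qx a m κ * len (x - y) ^ m) := by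
  obtain ⟨K, hKe⟩ : ∃ K, K = 4 * ε⁻¹ + (3 / 2 + 21 / 2 * ε) * (ε⁻¹ * ε⁻¹) := ⟨_, rfl⟩
  have hK : 0 ≤ K := by rw [hKe]; positivity
  have hK1 : 4 * ε⁻¹ ≤ K := by rw [hKe]; linarith [show 0 ≤ (3 / 2 + 21 / 2 * ε) * (ε⁻¹ * ε⁻¹) by positivity]
  have hK2 : (3 / 2 + 21 / 2 * ε) * (ε⁻¹ * ε⁻¹) ≤ K := by rw [hKe]; linarith [show 0 ≤ 4 * ε⁻¹ by positivity]
  refine ⟨K, hK, fun e x y => ?_⟩
  wlog hxy : len y ≤ len x generalizing x y
  · have := this y x (not_le.1 hxy).le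
    rwa [abs_sub_comm, max_comm, ← neg_sub x y, len_neg] at this
  have ha := E.ha
  have hm := E.hm
  have hm1 := E.facts.1
  have hma := E.hma
  have hκ := E.hκ
  have hJx := one_le_jb x
  have hJy := one_le_jb y
  have hJxy : jb y ≤ jb x := by
    refine Real.sqrt_le_sqrt ?_
    have h1 := len_sq x
    have h2 := len_sq y
    have h3 := pow_le_pow_left₀ (len_nonneg y) hxy 2
    linarith
  rw [max_eq_left hJxy]
  rcases (len_nonneg x).eq_or_lt with h0 | h0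
  · have hx : x = 0 := uth_len0 h0.symm
    have hy : y = 0 := uth_len0 (le_antisymm (h0 ▸ hxy) (len_nonneg y))
    rw [hx, hy, sub_self, abs_zero]
    have := len_nonneg ((0 : Vec d) - 0)
    have := jb_pos (0 : Vec d)
    positivity
  have hlJ := len_le_jb x
  have hh := len_nonneg (x - y)
  have hP : 0 ≤ len x ^ a * jb x ^ (m + κ) := by positivity
  -- the sum of the absolute values
  have hsum : |Th0 e a m κ ε x - Th0 e a m κ ε y| ≤ 2 * ε⁻¹ * (len x ^ a * jb x ^ (m + κ)) := by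
    have h1 := Th0_abs E hε e x
    have h2 := Th0_abs E hε e y
    have h3 : len y ^ a * jb y ^ (m + κ) ≤ len x ^ a * jb x ^ (m + κ) :=
      mul_le_mul (Real.rpow_le_rpow (len_nonneg _) hxy ha.le)
        (Real.rpow_le_rpow (jb_pos _).le hJxy (by linarith)) (Real.rpow_nonneg (jb_pos _).le _)
        (by positivity)
    have h4 := mul_le_mul_of_nonneg_left h3 (inv_nonneg.2 hε.le)
    have h5 : |Th0 e a m κ ε x - Th0 e a m κ ε y| ≤ |Th0 e a m κ ε x| + |Th0 e a m κ ε y| := abs_sub _ _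
    linarith
  rcases le_or_gt (len x) (2 * len (x - y)) with hc | hc
  · -- large distance
    have h1 : len x ^ a ≤ jb x ^ (a - m) * (2 * len (x - y) ^ m) := by
      calc len x ^ a = len x ^ (a - m) * len x ^ m := by
            rw [← Real.rpow_add h0]
            congr 1
            ring
        _ ≤ jb x ^ (a - m) * (2 * len (x - y)) ^ m :=
            mul_le_mul (Real.rpow_le_rpow h0.le hlJ (by linarith)) (Real.rpow_le_rpow h0.le hc hm.le)
              (by positivity) (Real.rpow_nonneg (jb_pos _).le _)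
        _ ≤ jb x ^ (a - m) * (2 * len (x - y) ^ m) := by
            refine mul_le_mul_of_nonneg_left ?_ (Real.rpow_nonneg (jb_pos _).le _)
            rw [Real.mul_rpow (by norm_num) hh]
            refine mul_le_mul_of_nonneg_right ?_ (Real.rpow_nonneg hh _)
            calc (2 : ℝ) ^ m ≤ 2 ^ (1 : ℝ) := Real.rpow_le_rpow_of_exponent_le (by norm_num) hm1.le
              _ = 2 := Real.rpow_one _
    have hJ0 := jb_pos x
    calc |Th0 e a m κ ε x - Th0 e a m κ ε y| ≤ 2 * ε⁻¹ * (len x ^ a * jb x ^ (m + κ)) := hsum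
      _ ≤ 2 * ε⁻¹ * (jb x ^ (a - m) * (2 * len (x - y) ^ m) * jb x ^ (m + κ)) := by
          refine mul_le_mul_of_nonneg_left (mul_le_mul_of_nonneg_right h1 (by positivity)) (by positivity)
      _ = 4 * ε⁻¹ * (jb x ^ (a - m) * jb x ^ (m + κ) * len (x - y) ^ m) := by ring
      _ = 4 * ε⁻¹ * (jb x ^ (a + κ) * len (x - y) ^ m) := by
          rw [← Real.rpow_add hJ0]
          congr 3
          ring
      _ ≤ 4 * ε⁻¹ * (jb x ^ qx a m κ * len (x - y) ^ m) := by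
          refine mul_le_mul_of_nonneg_left (mul_le_mul_of_nonneg_right ?_ (Real.rpow_nonneg hh _)) (by positivity)
          exact Real.rpow_le_rpow_of_exponent_le hJx E.facts.2.2.1
      _ ≤ K * (jb x ^ qx a m κ * len (x - y) ^ m) := by
          refine mul_le_mul_of_nonneg_right hK1 (by positivity)
  · -- small distance
    have hL0 : 0 < len x := h0
    obtain ⟨τ, hτe⟩ : ∃ τ, τ = len (x - y) / len x := ⟨_, rfl⟩
    have hτ0 : 0 ≤ τ := by rw [hτe]; positivity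
    have hτ1 : τ ≤ 1 / 2 := by
      rw [hτe, div_le_iff₀ hL0]
      linarith
    have hτh : τ * len x = len (x - y) := by
      rw [hτe]
      field_simp
    have hl1 : (1 - τ) * len x ≤ len y := by
      have h1 := len_le_add_sub x y
      have : (1 - τ) * len x = len x - len (x - y) := by rw [← hτh]; ring
      rw [this]
      linarith
    have hl2 : (1 - τ) * jb x ≤ jb y := by
      have h1 := (abs_le.1 (jb_lip x y)).2
      have h2 : len (x - y) ≤ τ * jb x := by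
        rw [← hτh]
        exact mul_le_mul_of_nonneg_left hlJ hτ0
      have : (1 - τ) * jb x = jb x - τ * jb x := by ring
      rw [this]
      linarith
    have hly : 0 < len y := by
      refine lt_of_lt_of_le ?_ hl1
      have : 0 < 1 - τ := by linarith
      positivity
    have hJ0 := jb_pos x
    have hJ0' := jb_pos y
    obtain ⟨A1, A2⟩ := uth_A E hly hJ0' hxy hJxy hτ0 hτ1 hl1 hl2
    obtain ⟨D1, D2⟩ := uth_D E hε hly hJ0' hxy hJxy hτ0 hτ1 hl1 hl2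
    have hDx : 0 < ε * jb x ^ (-κ) * len x := by positivity
    have hDy : 0 < ε * jb y ^ (-κ) * len y := by positivity
    have hJk : jb x ^ (-κ) ≤ 1 := Real.rpow_le_one_of_one_le_of_nonpos hJx (by linarith)
    have hτD : τ * (ε * jb x ^ (-κ) * len x) ≤ ε * len (x - y) := by
      calc τ * (ε * jb x ^ (-κ) * len x) = ε * jb x ^ (-κ) * (τ * len x) := by ring
        _ = ε * jb x ^ (-κ) * len (x - y) := by rw [hτh]
        _ ≤ ε * 1 * len (x - y) := by gcongr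
        _ = ε * len (x - y) := by ring
    have hpp : |x e - y e| ≤ len (x - y) := by
      have := abs_coord_le (x - y) e
      rwa [Pi.sub_apply] at this
    have hmain := uth_prod (p := x e) (p' := y e) (by positivity) (by positivity) A1 A2 hDx hDy D1 D2 hτ0
      hpp hτD
    refine uth_interp E (K := K) hL0 hJx hlJ hh hK ?_ ?_
    · show |Th0 e a m κ ε x - Th0 e a m κ ε y| ≤ _
      unfold Th0
      refine hmain.trans ?_
      have e1 : len x ^ (1 + a) * jb x ^ m * (len (x - y) / (ε * jb x ^ (-κ) * len x) ^ 2) =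
          ε⁻¹ * ε⁻¹ * (len x ^ a * jb x ^ (m + κ) * (len (x - y) * jb x ^ κ / len x)) := by
        rw [uth_AD (κ := κ) hε hL0 hJ0, Real.rpow_neg hJ0.le κ]
        have h1 : jb x ^ κ ≠ 0 := (Real.rpow_pos_of_pos hJ0 κ).ne'
        field_simp
      rw [e1]
      calc ε⁻¹ * ε⁻¹ * (len x ^ a * jb x ^ (m + κ) * (len (x - y) * jb x ^ κ / len x)) *
          (3 / 2 + 21 / 2 * ε) = (3 / 2 + 21 / 2 * ε) * (ε⁻¹ * ε⁻¹) *
            (len x ^ a * jb x ^ (m + κ) * (len (x - y) * jb x ^ κ / len x)) := by ring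
        _ ≤ K * (len x ^ a * jb x ^ (m + κ) * (len (x - y) * jb x ^ κ / len x)) :=
          mul_le_mul_of_nonneg_right hK2 (by positivity)
    · refine hsum.trans (mul_le_mul_of_nonneg_right ?_ hP)
      have : 0 ≤ 2 * ε⁻¹ := by positivity
      linarith

theorem Th0_cont (E : EU a m κ) (hε : 0 < ε) (e : Fin d) : Continuous (Th0 e a m κ ε) := by
  obtain ⟨K, hK, h⟩ := Th0_hol (d := d) E hε
  rw [continuous_iff_continuousAt]
  intro x
  rw [ContinuousAt, tendsto_iff_dist_tendsto_zero]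
  have hc : Continuous fun y : Vec d => K * (max (jb y) (jb x) ^ qx a m κ * len (y - x) ^ m) := by
    refine continuous_const.mul (Continuous.mul ?_ ?_)
    · refine (jb_cont.max continuous_const).rpow_const fun w' => Or.inl ?_
      exact (lt_of_lt_of_le (jb_pos w') (le_max_left _ _)).ne'
    · exact (continuous_len.comp (continuous_id.sub continuous_const)).rpow_const
        fun w' => Or.inr E.hm.le
  have h0 : Tendsto (fun y : Vec d => K * (max (jb y) (jb x) ^ qx a m κ * len (y - x) ^ m)) (𝓝 x)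
      (𝓝 0) := by
    have h1 := hc.tendsto x
    have h2 : len (x - x) = 0 := by
      rw [sub_self]
      unfold len nsq
      simp
    rwa [h2, Real.zero_rpow E.hm.ne', mul_zero, mul_zero] at h1
  refine squeeze_zero (fun _ => dist_nonneg) (fun y => ?_) h0
  rw [Real.dist_eq]
  exact h e y x

end Pool.Agent.H85.UT
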