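import Pool.Agent.H85.UT.UHw
import Pool.Agent.H25.PT.SliV
import Pool.Agent.H48.PL.CSolP
import Pool.Agent.H48.PL.Glob
import Pool.Agent.H71.PX.YC

/-!
# Module UTim: the pair functional with weight `TV` in time

Copy of `pair_timeV` (H25/PT/TimCV; or PL/TimC) with `Φ = TV e a m κ ε V`, `pair_sliceV` and `pair_absV` (H25/PT/SliV, general `Φ`, `B`) with `q = qx a m κ`, `X x = XT a m V (f τ x)`, `K` from `fib_TV`, `B = 4 V^(-1)` (`VTV_le`), `B = 4 ε⁻¹ V^(-1)` (`TV_abs`) for the two end terms,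
`M' = 2M`, `Y x = YW a m V (f τ x) (CmpS δ' ∩ NtM e ε κ)`, `c` from `VTV_low` (`timC_low` of PL/TimC: `c YW(A) ≤ ∫∫ g g_* V_e TV`). `X`, `Y` are `YG a m ω` with `ω = om(RR)` resp. its indicator (`XT_eq`): continuity, integrability, `PlF` from H71/PX/YC (`YG_cont`, `YGt_cont`, `YG_int`, `YG_pl`).
Result: `c ∫∫ Y ≤ 2 · 4ε⁻¹V^(-1)(2M)² + 4V^(-1)(2M)²(t-r)/l + K η ∫∫ X ≤ K' M² V^(-1)(1 + (t-r)/l) + K η ∫∫ X`.
-/

set_option autoImplicit false

open MeasureTheory Set Filter Topology Pool.Agent.H25.Kin Pool.Agent.H82.BK Pool.Agent.H82.CM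
open Pool.Agent.H48.PL Pool.Agent.H48.PI Pool.Agent.H48.PW Pool.Agent.H71.PX

namespace Pool.Agent.H85.UT

variable {d : ℕ} {s a m κ ε C Ca cb : ℝ} {b : ℝ → ℝ}

/-- the lower bound of the quadratic form with weight `V_e TV` -/
private lemma utim_low (E : EU a m κ) (hε : 0 < ε) (e : Fin d) {V : ℝ} (hV : 1 ≤ V) {c : ℝ}
    {A : Set (Vec d × Vec d)} (hA : MeasurableSet A)
    (hc : ∀ v w : Vec d, (v, w) ∈ A →
      c * (len (v - w) ^ (1 + a) * jb (v - w) ^ m * om m V (RR v w)) ≤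
        (v e - w e) * TV e a m κ ε V v w)
    {g : Vec d → ℝ} (hg : RD g) (hgc : Continuous g) (hg0 : ∀ v, 0 ≤ g v) :
    c * YW a m V g A ≤ ∫ v, g v * ∫ w, (v e - w e) * TV e a m κ ε V v w * g w := by
  have ha0 : 0 ≤ a := E.ha.le
  have ha1 : a ≤ 1 := E.ha1.le
  have hm1 : m ≤ 1 := E.facts.1.le
  obtain ⟨Ψ, hΨ⟩ : ∃ Ψ : Vec d × Vec d → ℝ, ∀ p,
      Ψ p = g p.1 * ((p.1 e - p.2 e) * TV e a m κ ε V p.1 p.2 * g p.2) := ⟨_, fun _ => rfl⟩
  have hΨc : Continuous Ψ := by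
    have h1 : Continuous fun p : Vec d × Vec d => (p.1 e - p.2 e) * TV e a m κ ε V p.1 p.2 :=
      ((TV_pgw E hε hV e).vmul e).cont
    have h2 : Continuous fun p : Vec d × Vec d => g p.1 := hgc.comp continuous_fst
    have h3 : Continuous fun p : Vec d × Vec d => g p.2 := hgc.comp continuous_snd
    have h4 : Ψ = fun p : Vec d × Vec d =>
        g p.1 * ((p.1 e - p.2 e) * TV e a m κ ε V p.1 p.2 * g p.2) := funext hΨ
    rw [h4]
    exact h2.mul (h1.mul h3)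
  have hΨ0 : ∀ p, 0 ≤ Ψ p := fun p => by
    rw [hΨ]
    exact mul_nonneg (hg0 _) (mul_nonneg (VTV_nonneg hV e a m κ ε _ _) (hg0 _))
  have hj : Integrable (fun v => g v * jb v ^ 2) := by
    have h1 : PG (fun v : Vec d => jb v ^ 2) := by
      have h2 : (fun v : Vec d => jb v ^ 2) = fun v => 1 + nsq v := funext jb_sq
      rw [h2]
      exact (PG.const (1 : ℝ)).add PG.nsq
    exact (hg.mul_PG h1).integrable (hgc.mul (jb_cont.pow 2)).aestronglyMeasurable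
  have hb : Integrable (fun p : Vec d × Vec d =>
      4 * V ^ (-1 : ℝ) * ((g p.1 * jb p.1 ^ 2) * (g p.2 * jb p.2 ^ 2))) := (hj.mul_prod hj).const_mul _
  have hΨi : Integrable Ψ := by
    refine hb.mono' hΨc.aestronglyMeasurable (Eventually.of_forall fun p => ?_)
    rw [Real.norm_eq_abs, abs_of_nonneg (hΨ0 p), hΨ]
    have h1 := VTV_le (ε := ε) E hV e p.1 p.2
    calc g p.1 * ((p.1 e - p.2 e) * TV e a m κ ε V p.1 p.2 * g p.2)
        = g p.1 * g p.2 * ((p.1 e - p.2 e) * TV e a m κ ε V p.1 p.2) := by ring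
      _ ≤ g p.1 * g p.2 * (4 * V ^ (-1 : ℝ) * (jb p.1 ^ 2 * jb p.2 ^ 2)) :=
          mul_le_mul_of_nonneg_left h1 (mul_nonneg (hg0 _) (hg0 _))
      _ = _ := by ring
  have e1 : ∫ p, Ψ p = ∫ v, g v * ∫ w, (v e - w e) * TV e a m κ ε V v w * g w := by
    have h1 : ∫ p, Ψ p ∂((volume : Measure (Vec d)).prod (volume : Measure (Vec d))) =
        ∫ v, ∫ w, Ψ (v, w) := integral_prod _ hΨi
    rw [Measure.volume_eq_prod, h1]
    refine integral_congr_ae (Eventually.of_forall fun v => ?_)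
    simp only [hΨ]
    rw [integral_const_mul]
  rw [← e1]
  have hd := YW_integrable ha0 ha1 hm1 hV hg hgc
  have h1 : c * YW a m V g A = ∫ p in A, c * (dn a m g p * om m V (RR p.1 p.2)) :=
    (integral_const_mul _ _).symm
  rw [h1]
  refine (setIntegral_mono_on (hd.integrableOn.const_mul c) hΨi.integrableOn hA
    (fun p hp => ?_)).trans (setIntegral_le_integral hΨi (Eventually.of_forall hΨ0))
  have h2 := hc p.1 p.2 hp
  rw [hΨ]
  show c * (g p.1 * g p.2 * (len (p.1 - p.2) ^ (1 + a) * jb (p.1 - p.2) ^ m) *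
    om m V (RR p.1 p.2)) ≤ _
  calc c * (g p.1 * g p.2 * (len (p.1 - p.2) ^ (1 + a) * jb (p.1 - p.2) ^ m) *
        om m V (RR p.1 p.2))
      = g p.1 * g p.2 * (c * (len (p.1 - p.2) ^ (1 + a) * jb (p.1 - p.2) ^ m *
        om m V (RR p.1 p.2))) := by ring
    _ ≤ g p.1 * g p.2 * ((p.1 e - p.2 e) * TV e a m κ ε V p.1 p.2) :=
        mul_le_mul_of_nonneg_left h2 (mul_nonneg (hg0 _) (hg0 _))
    _ = _ := by ring

/-- the weight is measurable with values in `[0,1]` -/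
private lemma utim_wt (hm1 : m ≤ 1) {V : ℝ} (hV : 1 ≤ V) {A : Set (Vec d × Vec d)} (hA : MeasurableSet A) :
    Measurable (A.indicator fun p : Vec d × Vec d => om m V (RR p.1 p.2)) ∧
      (∀ p, 0 ≤ A.indicator (fun p : Vec d × Vec d => om m V (RR p.1 p.2)) p) ∧
      ∀ p, A.indicator (fun p : Vec d × Vec d => om m V (RR p.1 p.2)) p ≤ 1 := by
  have hV0 : 0 < V := by linarith
  refine ⟨(Pool.Agent.H25.PT.om_RR_cont hm1 V).measurable.indicator hA, fun p => ?_, fun p => ?_⟩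
  · exact indicator_nonneg (fun p _ => om_nonneg hV0 (RR_pos p.1 p.2).le) p
  · by_cases hp : p ∈ A
    · rw [indicator_of_mem hp]
      exact om_le_one hm1 hV0 (RR_pos p.1 p.2).le
    · rw [indicator_of_notMem hp]
      exact zero_le_one

theorem pair_timeM (HL : HypL d (1 + a) s b C Ca cb) (E : EU a m κ) (h1 : 2 * s < m) (hε : 0 < ε) (e : Fin d)
    {δ : ℝ} (hδ : 0 < δ) (hδ1 : δ ≤ 1) : ∃ c K : ℝ, 0 < c ∧ 0 ≤ K ∧
    ∀ (M T : ℝ) (f : ℝ → Vec d → Vec d → ℝ), IsBoltzmannSol (1 + a) b T f → Planar e T f → GB M (f 0) →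
      ∀ V : ℝ, 1 ≤ V → ∀ l η : ℝ, 0 < l → l ≤ 1 →
      (∀ t ∈ Ioo 0 T, ∀ x, loc e l (fun y => ∫ v, f t y v * jb v ^ qx a m κ) x ≤ η) →
      ∀ r t : ℝ, 0 < r → r ≤ t → t < T →
      c * ∫ τ in r..t, (∫ x, YW a m V (f τ x) (CmpS δ ∩ NtM e ε κ) ∂(muD d)) ≤
        K * M ^ 2 * V ^ (-1 : ℝ) * (1 + (t - r) / l) +
          K * η * ∫ τ in r..t, (∫ x, XT a m V (f τ x) ∂(muD d)) := by
  obtain ⟨K, hK, hKf⟩ := fib_TV HL E h1 hε e
  obtain ⟨c, hc, hcf⟩ := VTV_low E hε e hδ hδ1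
  have hεi : 0 < ε⁻¹ := inv_pos.2 hε
  refine ⟨c, 32 * ε⁻¹ + 16 + K, hc, by linarith, ?_⟩
  intro M T f hf hpl h0 V hV l η hl hl1 hη r t hr hrt htT
  have ha0 : 0 ≤ a := E.ha.le
  have ha1 : a ≤ 1 := E.ha1.le
  have hm1 : m ≤ 1 := E.facts.1.le
  have hfc : IsClassicalSol T (fun t x => boltzQ (1 + a) b (f t x)) f := hf
  have hC := csol_pair hfc hpl (TV_pgw (ε := ε) E hε hV e) hl
  have hIco : ∀ τ ∈ Ioo 0 T, τ ∈ Ico 0 T := fun τ hτ => ⟨hτ.1.le, hτ.2⟩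
  have hV0 : 0 ≤ V ^ (-1 : ℝ) := Real.rpow_nonneg (by linarith) _
  have hr' : r ∈ Ioo 0 T := ⟨hr, lt_of_le_of_lt hrt htT⟩
  have ht' : t ∈ Ioo 0 T := ⟨lt_of_lt_of_le hr hrt, htT⟩
  have hj2 : ∀ τ ∈ Ioo 0 T, ∫ q, f τ q.2 q.1 * jb q.1 ^ 2 ∂(nu d) ≤ 2 * M := fun τ hτ =>
    jb2_bound hf (hIco τ hτ) (glob_bounds HL.H hf h0 (hIco τ hτ))
  have hab : ∀ τ ∈ Ioo 0 T,
      |∫ p, f τ p.2 p.1 * pot e l (TV e a m κ ε V) (f τ) p.2 p.1 ∂(nu d)| ≤
        4 * ε⁻¹ * V ^ (-1 : ℝ) * (2 * M) ^ 2 := fun τ hτ =>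
    Pool.Agent.H25.PT.pair_absV (TV_pgw E hε hV e) (fs_of hf hpl hτ) hl hl1 (by positivity)
      (fun v w => TV_abs E hε hV e v w) (hj2 τ hτ)
  have hA1 : MeasurableSet (CmpS δ ∩ NtM e ε κ : Set (Vec d × Vec d)) :=
    (measurableSet_CmpS _).inter (measurableSet_NtM _ _ _)
  obtain ⟨wA1, wA2, wA3⟩ := utim_wt (m := m) (V := V) hm1 hV hA1
  obtain ⟨wM1, wM2, wM3⟩ := utim_wt (m := m) (V := V) hm1 hV (MeasurableSet.univ (α := Vec d × Vec d))
  have hXMe : ∀ τ : ℝ, (fun x => XT a m V (f τ x)) =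
      fun x => YG a m ((univ : Set (Vec d × Vec d)).indicator fun p => om m V (RR p.1 p.2)) (f τ x) :=
    fun τ => funext fun x => by rw [XT_eq, YW_eq_YG MeasurableSet.univ]
  have hXWe : ∀ τ : ℝ, (fun x => YW a m V (f τ x) (CmpS δ ∩ NtM e ε κ)) =
      fun x => YG a m ((CmpS δ ∩ NtM e ε κ : Set (Vec d × Vec d)).indicator
        fun p => om m V (RR p.1 p.2)) (f τ x) := fun τ => funext fun x => YW_eq_YG hA1
  have hXT0 : ∀ τ ∈ Ico 0 T, ∀ x, 0 ≤ XT a m V (f τ x) := fun τ hτ x => by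
    rw [XT_eq]
    exact YW_nonneg hV (hfc.nonneg τ hτ x) _
  have hsl : ∀ τ ∈ Ioo 0 T,
      c * ∫ x, YW a m V (f τ x) (CmpS δ ∩ NtM e ε κ) ∂(muD d) ≤
      (∫ p, (boltzQ (1 + a) b (f τ p.2) p.1 * pot e l (TV e a m κ ε V) (f τ) p.2 p.1 +
        f τ p.2 p.1 * dpot e l (TV e a m κ ε V) (f τ) (fun x => boltzQ (1 + a) b (f τ x)) p.2 p.1)
          ∂(nu d)) +
      4 * V ^ (-1 : ℝ) * (2 * M) ^ 2 / l +
        K * η * ∫ x, XT a m V (f τ x) ∂(muD d) := by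
    intro τ hτ
    have hn : ∀ x, Nice (f τ x) := fun x => hfc.nice hτ x
    have hn0 : ∀ x v, 0 ≤ f τ x v := hfc.nonneg τ (hIco τ hτ)
    have hXp : PlF e (fun x => XT a m V (f τ x)) := by
      rw [hXMe]
      exact YG_pl ha0 ha1 hm1 hfc hpl wM1 wM2 wM3 (hIco τ hτ)
    have hYi : Integrable (fun x => YW a m V (f τ x) (CmpS δ ∩ NtM e ε κ)) (muD d) := by
      rw [hXWe]
      exact YG_int ha0 ha1 hm1 hfc wA1 wA2 wA3 (hIco τ hτ)
    exact Pool.Agent.H25.PT.pair_sliceV (q := qx a m κ) (TV_pgw E hε hV e) (fun v w => TV_anti e a m κ ε V v w)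
      (fs_of hf hpl hτ) hl hl1
      hXp (hXT0 τ (hIco τ hτ)) hK
      (fun x v => hKf V (f τ x) hV (hn x) (hn0 x) v)
      (hη τ hτ) (by positivity)
      (fun v w => VTV_nonneg hV e a m κ ε v w) (fun v w => VTV_le E hV e v w)
      (hj2 τ hτ) hYi
      (fun x => utim_low E hε e hV hA1 (hcf V hV) (hn x).rd (hn x).cont (hn0 x))
  have hsub : Icc r t ⊆ Ioo 0 T := fun τ hτ => ⟨lt_of_lt_of_le hr hτ.1, lt_of_le_of_lt hτ.2 htT⟩
  have hsub' : Icc r t ⊆ Ico 0 T := fun τ hτ => hIco τ (hsub hτ)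
  have iY : IntervalIntegrable (fun τ =>
      ∫ x, YW a m V (f τ x) (CmpS δ ∩ NtM e ε κ) ∂(muD d)) volume r t := by
    apply ContinuousOn.intervalIntegrable
    rw [uIcc_of_le hrt]
    simp only [hXWe]
    exact (YGt_cont ha0 ha1 hm1 hfc wA1 wA2 wA3).mono hsub'
  have iX : IntervalIntegrable (fun τ =>
      ∫ x, XT a m V (f τ x) ∂(muD d)) volume r t := by
    apply ContinuousOn.intervalIntegrable
    rw [uIcc_of_le hrt]
    simp only [hXMe]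
    exact (YGt_cont ha0 ha1 hm1 hfc wM1 wM2 wM3).mono hsub'
  have iS : IntervalIntegrable (fun τ => ∫ p, (boltzQ (1 + a) b (f τ p.2) p.1 *
      pot e l (TV e a m κ ε V) (f τ) p.2 p.1 + f τ p.2 p.1 * dpot e l (TV e a m κ ε V) (f τ)
        (fun x => boltzQ (1 + a) b (f τ x)) p.2 p.1) ∂(nu d)) volume r t := by
    apply ContinuousOn.intervalIntegrable
    rw [uIcc_of_le hrt]
    exact hC.contI.mono hsub
  have hftc := hC.ftc hr hrt htT
  have b1 := abs_le.1 (hab r hr')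
  have b2 := abs_le.1 (hab t ht')
  have hint : c * ∫ τ in r..t,
      (∫ x, YW a m V (f τ x) (CmpS δ ∩ NtM e ε κ) ∂(muD d)) ≤
      (∫ τ in r..t, ((∫ p, (boltzQ (1 + a) b (f τ p.2) p.1 *
        pot e l (TV e a m κ ε V) (f τ) p.2 p.1 +
        f τ p.2 p.1 * dpot e l (TV e a m κ ε V) (f τ) (fun x => boltzQ (1 + a) b (f τ x)) p.2 p.1)
          ∂(nu d)) + 4 * V ^ (-1 : ℝ) * (2 * M) ^ 2 / l +
            K * η * ∫ x, XT a m V (f τ x) ∂(muD d))) := by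
    rw [← intervalIntegral.integral_const_mul]
    exact intervalIntegral.integral_mono_on hrt (iY.const_mul c)
      ((iS.add intervalIntegrable_const).add (iX.const_mul (K * η)))
      (fun τ hτ => hsl τ (hsub hτ))
  rw [intervalIntegral.integral_add (iS.add intervalIntegrable_const) (iX.const_mul (K * η)),
    intervalIntegral.integral_add iS intervalIntegrable_const, intervalIntegral.integral_const,
    intervalIntegral.integral_const_mul, smul_eq_mul] at hint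
  rw [← hftc] at hint
  have hXX : 0 ≤ ∫ τ in r..t, (∫ x, XT a m V (f τ x) ∂(muD d)) := by
    refine intervalIntegral.integral_nonneg hrt fun τ hτ => integral_nonneg fun x => ?_
    exact hXT0 τ (hsub' hτ) x
  have hη0 : 0 ≤ η := by
    have h2 : 0 ≤ loc e l (fun y => ∫ v, f r y v * jb v ^ qx a m κ) 0 :=
      loc_nonneg e l (fun y => integral_nonneg fun v =>
        mul_nonneg (hfc.nonneg r (hIco r hr') y v) (Real.rpow_nonneg (jb_pos v).le _)) 0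
    exact h2.trans (hη r hr' 0)
  set I : ℝ := ∫ τ in r..t, (∫ x, XT a m V (f τ x) ∂(muD d)) with hI
  have hηI : 0 ≤ η * I := mul_nonneg hη0 hXX
  have htr : 0 ≤ (t - r) / l := div_nonneg (by linarith) hl.le
  set v : ℝ := M ^ 2 * V ^ (-1 : ℝ) with hv
  have hv0 : 0 ≤ v := mul_nonneg (sq_nonneg M) hV0
  have e4 : (t - r) * (4 * V ^ (-1 : ℝ) * (2 * M) ^ 2 / l) = 16 * v * ((t - r) / l) := by
    rw [hv]
    ring
  have e5 : 4 * ε⁻¹ * V ^ (-1 : ℝ) * (2 * M) ^ 2 = 16 * ε⁻¹ * v := by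
    rw [hv]
    ring
  rw [e4] at hint
  rw [e5] at b1 b2
  have e6 : (32 * ε⁻¹ + 16 + K) * M ^ 2 * V ^ (-1 : ℝ) * (1 + (t - r) / l) +
      (32 * ε⁻¹ + 16 + K) * η * I = 32 * ε⁻¹ * v + 16 * v * ((t - r) / l) + K * η * I +
        (16 * v + K * v + (32 * ε⁻¹ + K) * (v * ((t - r) / l)) + (32 * ε⁻¹ + 16) * (η * I)) := by
    rw [hv]
    ring
  have e7 : 0 ≤ 16 * v + K * v + (32 * ε⁻¹ + K) * (v * ((t - r) / l)) +
      (32 * ε⁻¹ + 16) * (η * I) := by positivity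
  rw [e6]
  linarith [b1.1, b1.2, b2.1, b2.2]

end Pool.Agent.H85.UT
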