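import Pool.Agent.H85.UT.USm
import Pool.Agent.H85.UT.UTh
import Pool.Agent.H71.PX.YB

/-!
# Module UTv: the antisymmetric weight `TV`

`j = jb v`, `k = jb w`, `M = max j k`, `len (v-w), jb (v-w) ≤ 2M`.
* `TV_anti`: `Sm_comm`, `Th0_neg`. `TV_pgw`: `Sm_cont`, `Th0_cont`, `TV_abs`.
* `VTV_le`: `V_e TV ≤ Sm len^(1+a) jb^m ≤ 4 Sm M^(1+a+m) ≤ 4 V^(-1) j² k²` (`Sm_V`, `1+a+m ≤ 2`). `TV_abs`: `|TV| ≤ Sm ε⁻¹ (2M)^(a+m+κ) ≤ 4 ε⁻¹ V^(-1) j² k²` (`a+m+κ ≤ qx < 2`).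
* `VTV_low`: `(v,w) ∈ CmpS δ`: `δ RR ≤ j, k`, so `δ M ≤ min`, `Sm ≥ δ⁶ om(M) ≥ (δ⁶/16) om(RR)` (`RR ≤ 2M`, `om_two`, `om_mono`), `V_e Th0 ≥ (1/2) len^(1+a) jb^m` (`xTh0_low`). (`δ ≤ 1`; if `δ > 1` then `CmpS δ` is empty, or assume `δ ≤ 1`.)
* `TV_hol`: `h = len (w-w')`, by symmetry `k = jb w ≤ k' = jb w'`, `k'-k ≤ h` (`jb_lip`), `Q = qx a m κ`. (A) `k' ≤ 2h`: `|TV v w| ≤ 4 ε⁻¹ Sm(j,k) max^(a+m+κ) ≤ 4 ε⁻¹ j^Q k^m om(k) ≤ 8 ε⁻¹ j^Q h^m om(k')` (`Sm_S1`, `om_mono`), the same for `w'`.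
  (B) `2h < k'`: `k' ≤ 2k`. `TV v w - TV v w' = (Sm(j,k)-Sm(j,k')) Th0(v-w) + Sm(j,k')(Th0(v-w) - Th0(v-w'))`. First: `Sm_lip`, `h/k' ≤ (h/k')^m`, `|Th0(v-w)| ≤ 4 ε⁻¹ max(j,k')^(a+m+κ)`, `Sm_S1` at `k'`: `≤ 192 ε⁻¹ j^Q om(k') h^m`.
  Second: `Th0_hol`, `max(jb(v-w), jb(v-w')) ≤ 2 max(j,k')`, `Sm_S2`: `≤ 4K j^Q om(k') h^m`.
-/

set_option autoImplicit false

open MeasureTheory Set Filter Topology Pool.Agent.H25.Kin Pool.Agent.H48.PL Pool.Agent.H48.PI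
open Pool.Agent.H71.PX

namespace Pool.Agent.H85.UT

variable {d : ℕ} {a m κ ε V : ℝ}

private lemma utv_len (v w : Vec d) : len (v - w) ≤ 2 * max (jb v) (jb w) := by
  have h1 := len_sub_le v w
  have h2 := len_le_jb v
  have h3 := len_le_jb w
  have h4 := le_max_left (jb v) (jb w)
  have h5 := le_max_right (jb v) (jb w)
  linarith

private lemma utv_jb (v w : Vec d) : jb (v - w) ≤ 2 * max (jb v) (jb w) := by
  have h4 := le_max_left (jb v) (jb w)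
  have h5 := le_max_right (jb v) (jb w)
  have h6 := one_le_jb v
  have h7 := one_le_jb w
  have h8 := nsq_par v w
  have h9 := sq_nonneg' (v + w)
  have e1 := jb_sq v
  have e2 := jb_sq w
  have e3 := jb_sq (v - w)
  have h10 : jb v ^ 2 ≤ max (jb v) (jb w) ^ 2 := pow_le_pow_left₀ (by linarith) h4 2
  have h11 : jb w ^ 2 ≤ max (jb v) (jb w) ^ 2 := pow_le_pow_left₀ (by linarith) h5 2
  refine abs_le_of_sq_le_sq' ?_ (by linarith) |>.2
  have e4 : (2 * max (jb v) (jb w)) ^ 2 = 4 * max (jb v) (jb w) ^ 2 := by ring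
  rw [e4]
  linarith

private lemma utv_one (v w : Vec d) : 1 ≤ max (jb v) (jb w) := (one_le_jb v).trans (le_max_left _ _)

private lemma utv_pow {M p : ℝ} (hM : 0 ≤ M) (hp : p ≤ 2) : (2 * M) ^ p ≤ 4 * M ^ p := by
  rw [Real.mul_rpow (by norm_num) hM]
  refine mul_le_mul_of_nonneg_right ?_ (Real.rpow_nonneg hM p)
  calc (2 : ℝ) ^ p ≤ 2 ^ (2 : ℝ) := Real.rpow_le_rpow_of_exponent_le (by norm_num) hp
    _ = 4 := by norm_num

/-- product of two powers -/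
private lemma utv_prod {L J M p q : ℝ} (hL : 0 ≤ L) (hJ : 0 ≤ J) (hM : 0 < M) (hLM : L ≤ 2 * M)
    (hJM : J ≤ 2 * M) (hp : 0 ≤ p) (hq : 0 ≤ q) (hpq : p + q ≤ 2) :
    L ^ p * J ^ q ≤ 4 * M ^ (p + q) := by
  have h1 : L ^ p ≤ (2 * M) ^ p := Real.rpow_le_rpow hL hLM hp
  have h2 : J ^ q ≤ (2 * M) ^ q := Real.rpow_le_rpow hJ hJM hq
  calc L ^ p * J ^ q ≤ (2 * M) ^ p * (2 * M) ^ q :=
        mul_le_mul h1 h2 (Real.rpow_nonneg hJ _) (by positivity)
    _ = (2 * M) ^ (p + q) := (Real.rpow_add (by linarith) _ _).symm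
    _ ≤ 4 * M ^ (p + q) := utv_pow hM.le hpq

private lemma utv_th (E : EU a m κ) (hε : 0 < ε) (e : Fin d) (v w : Vec d) :
    |Th0 e a m κ ε (v - w)| ≤ 4 * ε⁻¹ * max (jb v) (jb w) ^ (a + m + κ) := by
  obtain ⟨f1, f2, f3, f4, f5, f6⟩ := E.facts
  have h0 := Th0_abs E hε e (v - w)
  have h1 := utv_prod (p := a) (q := m + κ) (len_nonneg (v - w)) (jb_pos (v - w)).le
    (lt_of_lt_of_le one_pos (utv_one v w)) (utv_len v w) (utv_jb v w) E.ha.le
    (by have := E.hm; have := E.hκ; linarith) (by linarith)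
  rw [← add_assoc] at h1
  calc |Th0 e a m κ ε (v - w)| ≤ ε⁻¹ * (len (v - w) ^ a * jb (v - w) ^ (m + κ)) := h0
    _ ≤ ε⁻¹ * (4 * max (jb v) (jb w) ^ (a + m + κ)) :=
        mul_le_mul_of_nonneg_left h1 (inv_pos.2 hε).le
    _ = 4 * ε⁻¹ * max (jb v) (jb w) ^ (a + m + κ) := by ring

theorem TV_anti (e : Fin d) (a m κ ε V : ℝ) (v w : Vec d) : TV e a m κ ε V w v = -TV e a m κ ε V v w := by
  unfold TV
  have h : w - v = -(v - w) := (neg_sub v w).symm
  rw [h, Th0_neg, Sm_comm m V (jb w) (jb v)]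
  ring

private lemma utv_eq (e : Fin d) (a m κ ε V : ℝ) (v w : Vec d) : (v e - w e) * TV e a m κ ε V v w =
    Sm m V (jb v) (jb w) * ((v - w) e * Th0 e a m κ ε (v - w)) := by
  unfold TV
  rw [Pi.sub_apply]
  ring

theorem VTV_nonneg (hV : 1 ≤ V) (e : Fin d) (a m κ ε : ℝ) (v w : Vec d) : 0 ≤ (v e - w e) * TV e a m κ ε V v w := by
  rw [utv_eq]
  exact mul_nonneg (Sm_nonneg hV (one_le_jb v) (one_le_jb w)) (xTh0_nonneg e a m κ ε (v - w))

theorem VTV_le (E : EU a m κ) (hV : 1 ≤ V) (e : Fin d) (v w : Vec d) :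
    (v e - w e) * TV e a m κ ε V v w ≤ 4 * V ^ (-1 : ℝ) * (jb v ^ 2 * jb w ^ 2) := by
  obtain ⟨f1, f2, f3, f4, f5, f6⟩ := E.facts
  have g1 := E.ha
  have g2 := E.hm
  have g3 := E.ham
  have hS := Sm_nonneg (m := m) hV (one_le_jb v) (one_le_jb w)
  have h1 := utv_prod (p := 1 + a) (q := m) (len_nonneg (v - w)) (jb_pos (v - w)).le
    (lt_of_lt_of_le one_pos (utv_one v w)) (utv_len v w) (utv_jb v w) (by linarith) g2.le (by linarith)
  have h2 := Sm_V (m := m) f1.le hV (one_le_jb v) (one_le_jb w) (p := 1 + a + m) (by linarith) (by linarith)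
  rw [utv_eq]
  calc Sm m V (jb v) (jb w) * ((v - w) e * Th0 e a m κ ε (v - w))
      ≤ Sm m V (jb v) (jb w) * (len (v - w) ^ (1 + a) * jb (v - w) ^ m) :=
        mul_le_mul_of_nonneg_left (xTh0_le e a m κ ε (v - w)) hS
    _ ≤ Sm m V (jb v) (jb w) * (4 * max (jb v) (jb w) ^ (1 + a + m)) := mul_le_mul_of_nonneg_left h1 hS
    _ = 4 * (Sm m V (jb v) (jb w) * max (jb v) (jb w) ^ (1 + a + m)) := by ring
    _ ≤ 4 * (V ^ (-1 : ℝ) * (jb v ^ 2 * jb w ^ 2)) := by linarith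
    _ = 4 * V ^ (-1 : ℝ) * (jb v ^ 2 * jb w ^ 2) := by ring

theorem TV_abs (E : EU a m κ) (hε : 0 < ε) (hV : 1 ≤ V) (e : Fin d) (v w : Vec d) :
    |TV e a m κ ε V v w| ≤ 4 * ε⁻¹ * V ^ (-1 : ℝ) * (jb v ^ 2 * jb w ^ 2) := by
  obtain ⟨f1, f2, f3, f4, f5, f6⟩ := E.facts
  have g1 := E.ha
  have g2 := E.hm
  have g3 := E.hκ
  have hS := Sm_nonneg (m := m) hV (one_le_jb v) (one_le_jb w)
  have hε' : 0 < ε⁻¹ := inv_pos.2 hε
  have h2 := Sm_V (m := m) f1.le hV (one_le_jb v) (one_le_jb w) (p := a + m + κ) (by linarith) (by linarith)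
  unfold TV
  rw [abs_mul, abs_of_nonneg hS]
  calc Sm m V (jb v) (jb w) * |Th0 e a m κ ε (v - w)|
      ≤ Sm m V (jb v) (jb w) * (4 * ε⁻¹ * max (jb v) (jb w) ^ (a + m + κ)) :=
        mul_le_mul_of_nonneg_left (utv_th E hε e v w) hS
    _ = 4 * ε⁻¹ * (Sm m V (jb v) (jb w) * max (jb v) (jb w) ^ (a + m + κ)) := by ring
    _ ≤ 4 * ε⁻¹ * (V ^ (-1 : ℝ) * (jb v ^ 2 * jb w ^ 2)) :=
        mul_le_mul_of_nonneg_left h2 (by positivity)
    _ = 4 * ε⁻¹ * V ^ (-1 : ℝ) * (jb v ^ 2 * jb w ^ 2) := by ring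

theorem TV_pgw (E : EU a m κ) (hε : 0 < ε) (hV : 1 ≤ V) (e : Fin d) : PGW (TV e a m κ ε V) := by
  have hε' : 0 < ε⁻¹ := inv_pos.2 hε
  have hV' : 0 ≤ V ^ (-1 : ℝ) := Real.rpow_nonneg (by linarith) _
  refine ⟨?_, 2, 4 * ε⁻¹ * V ^ (-1 : ℝ) * (((d : ℝ) + 1) ^ 2 * ((d : ℝ) + 1) ^ 2), by positivity, ?_⟩
  · have h1 := Sm_cont (d := d) (m := m) E.facts.1.le V
    have h2 : Continuous fun p : Vec d × Vec d => Th0 e a m κ ε (p.1 - p.2) :=
      (Th0_cont E hε e).comp (by fun_prop : Continuous fun p : Vec d × Vec d => p.1 - p.2)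
    exact h1.mul h2
  · intro v w
    have h1 : jb v ^ 2 ≤ (((d : ℝ) + 1) * (1 + ‖v‖)) ^ 2 := pow_le_pow_left₀ (jb_pos v).le (jb_le_w v) 2
    have h2 : jb w ^ 2 ≤ (((d : ℝ) + 1) * (1 + ‖w‖)) ^ 2 := pow_le_pow_left₀ (jb_pos w).le (jb_le_w w) 2
    calc |TV e a m κ ε V v w| ≤ 4 * ε⁻¹ * V ^ (-1 : ℝ) * (jb v ^ 2 * jb w ^ 2) := TV_abs E hε hV e v w
      _ ≤ 4 * ε⁻¹ * V ^ (-1 : ℝ) * ((((d : ℝ) + 1) * (1 + ‖v‖)) ^ 2 * (((d : ℝ) + 1) * (1 + ‖w‖)) ^ 2) :=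
          mul_le_mul_of_nonneg_left (mul_le_mul h1 h2 (by positivity) (by positivity)) (by positivity)
      _ = 4 * ε⁻¹ * V ^ (-1 : ℝ) * (((d : ℝ) + 1) ^ 2 * ((d : ℝ) + 1) ^ 2) *
          ((1 + ‖v‖) ^ 2 * (1 + ‖w‖) ^ 2) := by ring

theorem VTV_low (E : EU a m κ) (hε : 0 < ε) (e : Fin d) {δ : ℝ} (hδ : 0 < δ) (hδ1 : δ ≤ 1) :
    ∃ c : ℝ, 0 < c ∧ ∀ V : ℝ, 1 ≤ V → ∀ v w : Vec d, (v, w) ∈ CmpS δ ∩ NtM e ε κ →
      c * (len (v - w) ^ (1 + a) * jb (v - w) ^ m * om m V (RR v w)) ≤ (v e - w e) * TV e a m κ ε V v w := by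
  obtain ⟨f1, f2, f3, f4, f5, f6⟩ := E.facts
  refine ⟨δ ^ 6 / 32, by positivity, fun V hV v w hvw => ?_⟩
  obtain ⟨⟨c1, c2⟩, hN⟩ := hvw
  have c1' : δ * RR v w ≤ jb v := c1
  have c2' : δ * RR v w ≤ jb w := c2
  have hN' : ε * jb (v - w) ^ (-κ) * len (v - w) ≤ |(v - w) e| := hN
  have hM1 := utv_one v w
  have hMR : max (jb v) (jb w) ≤ RR v w := max_le (jb_le_RR_left v w) (jb_le_RR_right v w)
  have hmin : δ * max (jb v) (jb w) ≤ min (jb v) (jb w) := by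
    have h1 : δ * max (jb v) (jb w) ≤ δ * RR v w := mul_le_mul_of_nonneg_left hMR hδ.le
    exact le_min (h1.trans c1') (h1.trans c2')
  have h1 := Sm_low E.hm.le f1.le hV (one_le_jb v) (one_le_jb w) hδ hδ1 hmin
  have hR2 : RR v w ≤ 2 * max (jb v) (jb w) := by
    have := RR_le v w
    have := le_max_left (jb v) (jb w)
    have := le_max_right (jb v) (jb w)
    linarith
  have h2 : om m V (RR v w) ≤ 16 * om m V (max (jb v) (jb w)) :=
    (om_mono f1.le (by linarith) (by linarith [RR_pos v w]) hR2).trans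
      (om_two E.hm.le f1.le hV (by linarith))
  have h3 := xTh0_low E hε e hN'
  have hW : 0 ≤ len (v - w) ^ (1 + a) * jb (v - w) ^ m :=
    mul_nonneg (Real.rpow_nonneg (len_nonneg _) _) (Real.rpow_nonneg (jb_pos _).le _)
  have hom : 0 ≤ om m V (max (jb v) (jb w)) := om_nonneg (by linarith) (by linarith)
  have hδ6 : 0 < δ ^ 6 := by positivity
  rw [utv_eq]
  calc δ ^ 6 / 32 * (len (v - w) ^ (1 + a) * jb (v - w) ^ m * om m V (RR v w))
      ≤ δ ^ 6 / 32 * (len (v - w) ^ (1 + a) * jb (v - w) ^ m * (16 * om m V (max (jb v) (jb w)))) :=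
        mul_le_mul_of_nonneg_left (mul_le_mul_of_nonneg_left h2 hW) (by positivity)
    _ = (δ ^ 6 * om m V (max (jb v) (jb w))) * ((len (v - w) ^ (1 + a) * jb (v - w) ^ m) / 2) := by ring
    _ ≤ Sm m V (jb v) (jb w) * ((len (v - w) ^ (1 + a) * jb (v - w) ^ m) / 2) :=
        mul_le_mul_of_nonneg_right h1 (by positivity)
    _ ≤ Sm m V (jb v) (jb w) * ((v - w) e * Th0 e a m κ ε (v - w)) :=
        mul_le_mul_of_nonneg_left (by linarith) (Sm_nonneg hV (one_le_jb v) (one_le_jb w))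

/-- large differences -/
private lemma utv_big (E : EU a m κ) (hε : 0 < ε) (hV : 1 ≤ V) (e : Fin d) (v w : Vec d) {k' h : ℝ}
    (hk : jb w ≤ k') (hh : k' ≤ 2 * h) :
    |TV e a m κ ε V v w| ≤ 8 * ε⁻¹ * (jb v ^ qx a m κ * (om m V k' * h ^ m)) := by
  obtain ⟨f1, f2, f3, f4, f5, f6⟩ := E.facts
  have hS := Sm_nonneg (m := m) hV (one_le_jb v) (one_le_jb w)
  have hε' : 0 < ε⁻¹ := inv_pos.2 hε
  have hw1 := one_le_jb w
  have hj : 0 ≤ jb v ^ qx a m κ := Real.rpow_nonneg (jb_pos v).le _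
  have hh0 : 0 ≤ h := by linarith
  have h1 := Sm_S1 E hV (one_le_jb v) hw1
  have h2 : jb w ^ m ≤ 2 * h ^ m := by
    calc jb w ^ m ≤ (2 * h) ^ m := Real.rpow_le_rpow (by linarith) (by linarith) E.hm.le
      _ = 2 ^ m * h ^ m := Real.mul_rpow (by norm_num) hh0
      _ ≤ 2 * h ^ m := by
        refine mul_le_mul_of_nonneg_right ?_ (Real.rpow_nonneg hh0 _)
        calc (2 : ℝ) ^ m ≤ 2 ^ (1 : ℝ) := Real.rpow_le_rpow_of_exponent_le (by norm_num) f1.le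
          _ = 2 := Real.rpow_one 2
  have h3 : om m V (jb w) ≤ om m V k' := om_mono f1.le (by linarith) (by linarith) hk
  have hom : 0 ≤ om m V (jb w) := om_nonneg (by linarith) (by linarith)
  have hom' : 0 ≤ om m V k' := om_nonneg (by linarith) (by linarith)
  unfold TV
  rw [abs_mul, abs_of_nonneg hS]
  calc Sm m V (jb v) (jb w) * |Th0 e a m κ ε (v - w)|
      ≤ Sm m V (jb v) (jb w) * (4 * ε⁻¹ * max (jb v) (jb w) ^ (a + m + κ)) :=
        mul_le_mul_of_nonneg_left (utv_th E hε e v w) hS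
    _ = 4 * ε⁻¹ * (Sm m V (jb v) (jb w) * max (jb v) (jb w) ^ (a + m + κ)) := by ring
    _ ≤ 4 * ε⁻¹ * (jb v ^ qx a m κ * (jb w ^ m * om m V (jb w))) :=
        mul_le_mul_of_nonneg_left h1 (by positivity)
    _ ≤ 4 * ε⁻¹ * (jb v ^ qx a m κ * (2 * h ^ m * om m V k')) := by
        refine mul_le_mul_of_nonneg_left ?_ (by positivity)
        exact mul_le_mul_of_nonneg_left (mul_le_mul h2 h3 hom
          (mul_nonneg (by norm_num) (Real.rpow_nonneg hh0 _))) hj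
    _ = 8 * ε⁻¹ * (jb v ^ qx a m κ * (om m V k' * h ^ m)) := by ring

private lemma utv_hol (E : EU a m κ) (hε : 0 < ε) {K : ℝ} (hK : 0 ≤ K) (hKh : ∀ (e : Fin d) (x y : Vec d),
    |Th0 e a m κ ε x - Th0 e a m κ ε y| ≤ K * (max (jb x) (jb y) ^ qx a m κ * len (x - y) ^ m))
    (hV : 1 ≤ V) (e : Fin d) (v w w' : Vec d) (hww : jb w ≤ jb w') :
    |TV e a m κ ε V v w - TV e a m κ ε V v w'| ≤
      (192 * ε⁻¹ + 4 * K) * (jb v ^ qx a m κ * (om m V (jb w') * len (w - w') ^ m)) := by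
  obtain ⟨f1, f2, f3, f4, f5, f6⟩ := E.facts
  have hε' : 0 < ε⁻¹ := inv_pos.2 hε
  have hj1 := one_le_jb v
  have hk1 := one_le_jb w
  have hk1' := one_le_jb w'
  have hh0 : 0 ≤ len (w - w') := len_nonneg _
  have hk'0 : 0 < jb w' := by linarith
  have hlip : jb w' - jb w ≤ len (w - w') := by
    have := (abs_le.1 (jb_lip w w')).1
    linarith
  have hom' : 0 ≤ om m V (jb w') := om_nonneg (by linarith) (by linarith)
  have hj : 0 ≤ jb v ^ qx a m κ := Real.rpow_nonneg (by linarith) _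
  have hhm : 0 ≤ len (w - w') ^ m := Real.rpow_nonneg hh0 _
  have hT : 0 ≤ jb v ^ qx a m κ * (om m V (jb w') * len (w - w') ^ m) := by positivity
  rcases le_or_gt (jb w') (2 * len (w - w')) with hA | hB
  · have h1 := utv_big E hε hV e v w hww hA
    have h2 := utv_big E hε hV e v w' le_rfl hA
    calc |TV e a m κ ε V v w - TV e a m κ ε V v w'| ≤ |TV e a m κ ε V v w| + |TV e a m κ ε V v w'| :=
          abs_sub _ _
      _ ≤ 8 * ε⁻¹ * (jb v ^ qx a m κ * (om m V (jb w') * len (w - w') ^ m)) +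
          8 * ε⁻¹ * (jb v ^ qx a m κ * (om m V (jb w') * len (w - w') ^ m)) := add_le_add h1 h2
      _ = 16 * ε⁻¹ * (jb v ^ qx a m κ * (om m V (jb w') * len (w - w') ^ m)) := by ring
      _ ≤ (192 * ε⁻¹ + 4 * K) * (jb v ^ qx a m κ * (om m V (jb w') * len (w - w') ^ m)) := by
          refine mul_le_mul_of_nonneg_right ?_ hT
          linarith
  · have hk2 : jb w' ≤ 2 * jb w := by linarith
    have hS' := Sm_nonneg (m := m) hV hj1 hk1'
    -- first term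
    have hfrac : (jb w' - jb w) / jb w' ≤ (len (w - w') / jb w') ^ m := by
      have h1 : (jb w' - jb w) / jb w' ≤ len (w - w') / jb w' := div_le_div_of_nonneg_right hlip hk'0.le
      have h2 : len (w - w') / jb w' ≤ 1 := by
        rw [div_le_one hk'0]
        linarith
      have h3 : 0 ≤ len (w - w') / jb w' := div_nonneg hh0 hk'0.le
      refine h1.trans ?_
      calc len (w - w') / jb w' = (len (w - w') / jb w') ^ (1 : ℝ) := (Real.rpow_one _).symm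
        _ ≤ (len (w - w') / jb w') ^ m := by
          rcases h3.eq_or_lt with h4 | h4
          · rw [← h4, Real.zero_rpow one_ne_zero, Real.zero_rpow E.hm.ne']
          · exact Real.rpow_le_rpow_of_exponent_ge h4 h2 f1.le
    have hSl := Sm_lip (m := m) E.hm.le f1.le hV hj1 hk1 hww hk2
    have hmax : max (jb v) (jb w) ^ (a + m + κ) ≤ max (jb v) (jb w') ^ (a + m + κ) := by
      refine Real.rpow_le_rpow (by linarith [utv_one v w]) (max_le_max le_rfl hww) ?_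
      have := E.ha
      have := E.hm
      have := E.hκ
      linarith
    have hth : |Th0 e a m κ ε (v - w)| ≤ 4 * ε⁻¹ * max (jb v) (jb w') ^ (a + m + κ) :=
      (utv_th E hε e v w).trans (mul_le_mul_of_nonneg_left hmax (by positivity))
    have hS1 := Sm_S1 E hV hj1 hk1'
    have hpow : jb w' ^ m * (len (w - w') / jb w') ^ m = len (w - w') ^ m := by
      rw [← Real.mul_rpow hk'0.le (div_nonneg hh0 hk'0.le)]
      congr 1
      field_simp
    have hfm : 0 ≤ (len (w - w') / jb w') ^ m := Real.rpow_nonneg (div_nonneg hh0 hk'0.le) _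
    have hmx : 0 ≤ max (jb v) (jb w') ^ (a + m + κ) := Real.rpow_nonneg (by linarith [utv_one v w']) _
    have hI : |(Sm m V (jb v) (jb w) - Sm m V (jb v) (jb w')) * Th0 e a m κ ε (v - w)| ≤
        192 * ε⁻¹ * (jb v ^ qx a m κ * (om m V (jb w') * len (w - w') ^ m)) := by
      rw [abs_mul]
      calc |Sm m V (jb v) (jb w) - Sm m V (jb v) (jb w')| * |Th0 e a m κ ε (v - w)|
          ≤ (48 * (Sm m V (jb v) (jb w') * (len (w - w') / jb w') ^ m)) *
            (4 * ε⁻¹ * max (jb v) (jb w') ^ (a + m + κ)) := by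
            refine mul_le_mul (hSl.trans ?_) hth (abs_nonneg _) (by positivity)
            exact mul_le_mul_of_nonneg_left (mul_le_mul_of_nonneg_left hfrac hS') (by norm_num)
        _ = 192 * ε⁻¹ * ((Sm m V (jb v) (jb w') * max (jb v) (jb w') ^ (a + m + κ)) *
            (len (w - w') / jb w') ^ m) := by ring
        _ ≤ 192 * ε⁻¹ * ((jb v ^ qx a m κ * (jb w' ^ m * om m V (jb w'))) *
            (len (w - w') / jb w') ^ m) :=
            mul_le_mul_of_nonneg_left (mul_le_mul_of_nonneg_right hS1 hfm) (by positivity)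
        _ = 192 * ε⁻¹ * (jb v ^ qx a m κ * (om m V (jb w') *
            (jb w' ^ m * (len (w - w') / jb w') ^ m))) := by ring
        _ = 192 * ε⁻¹ * (jb v ^ qx a m κ * (om m V (jb w') * len (w - w') ^ m)) := by rw [hpow]
    -- second term
    have hS2 := Sm_S2 E hV hj1 hk1'
    have hT0 := hKh e (v - w) (v - w')
    have e1 : len (v - w - (v - w')) = len (w - w') := by
      have : v - w - (v - w') = -(w - w') := by abel
      rw [this, len_neg]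
    rw [e1] at hT0
    have hmx2 : max (jb (v - w)) (jb (v - w')) ≤ 2 * max (jb v) (jb w') := by
      refine max_le ((utv_jb v w).trans ?_) (utv_jb v w')
      exact mul_le_mul_of_nonneg_left (max_le_max le_rfl hww) (by norm_num)
    have hmx3 : max (jb (v - w)) (jb (v - w')) ^ qx a m κ ≤ 4 * max (jb v) (jb w') ^ qx a m κ :=
      (Real.rpow_le_rpow (by linarith [utv_one (v - w) (v - w')]) hmx2 f4.le).trans
        (utv_pow (by linarith [utv_one v w']) f5.le)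
    have hII : |Sm m V (jb v) (jb w') * (Th0 e a m κ ε (v - w) - Th0 e a m κ ε (v - w'))| ≤
        4 * K * (jb v ^ qx a m κ * (om m V (jb w') * len (w - w') ^ m)) := by
      rw [abs_mul, abs_of_nonneg hS']
      calc Sm m V (jb v) (jb w') * |Th0 e a m κ ε (v - w) - Th0 e a m κ ε (v - w')|
          ≤ Sm m V (jb v) (jb w') * (K * ((4 * max (jb v) (jb w') ^ qx a m κ) * len (w - w') ^ m)) := by
            refine mul_le_mul_of_nonneg_left (hT0.trans ?_) hS'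
            exact mul_le_mul_of_nonneg_left (mul_le_mul_of_nonneg_right hmx3 hhm) hK
        _ = 4 * K * ((Sm m V (jb v) (jb w') * max (jb v) (jb w') ^ qx a m κ) * len (w - w') ^ m) := by ring
        _ ≤ 4 * K * ((jb v ^ qx a m κ * om m V (jb w')) * len (w - w') ^ m) :=
            mul_le_mul_of_nonneg_left (mul_le_mul_of_nonneg_right hS2 hhm) (by positivity)
        _ = 4 * K * (jb v ^ qx a m κ * (om m V (jb w') * len (w - w') ^ m)) := by ring
    have hsplit : TV e a m κ ε V v w - TV e a m κ ε V v w' =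
        (Sm m V (jb v) (jb w) - Sm m V (jb v) (jb w')) * Th0 e a m κ ε (v - w) +
        Sm m V (jb v) (jb w') * (Th0 e a m κ ε (v - w) - Th0 e a m κ ε (v - w')) := by
      unfold TV
      ring
    rw [hsplit]
    refine (abs_add_le _ _).trans ?_
    rw [add_mul]
    exact add_le_add hI hII

theorem TV_hol (E : EU a m κ) (hε : 0 < ε) : ∃ K : ℝ, 0 ≤ K ∧ ∀ (e : Fin d) (V : ℝ), 1 ≤ V → ∀ v w w' : Vec d,
    |TV e a m κ ε V v w - TV e a m κ ε V v w'| ≤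
      K * jb v ^ qx a m κ * (om m V (max (jb w) (jb w')) * len (w - w') ^ m) := by
  obtain ⟨K, hK, hKh⟩ := Th0_hol (d := d) E hε
  have hε' : 0 < ε⁻¹ := inv_pos.2 hε
  refine ⟨192 * ε⁻¹ + 4 * K, by positivity, fun e V hV v w w' => ?_⟩
  rcases le_total (jb w) (jb w') with h | h
  · have h1 := utv_hol E hε hK hKh hV e v w w' h
    rw [max_eq_right h, mul_assoc]
    exact h1
  · have h1 := utv_hol E hε hK hKh hV e v w' w h
    rw [max_eq_left h, mul_assoc, abs_sub_comm, len_comm w w']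
    exact h1

end Pool.Agent.H85.UT
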